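import Pool.Agent.Lib.MP_ff3ed7_lc.Adv.Rob

/-! The oracles given by blocks (helper47). -/

set_option autoImplicit false

open Finset

namespace Pool.Agent.Lib.MP_ff3ed7_lc.Adv

open PP (Jx)

section

variable {T : ℕ} (ℓ : ℕ) (inp : Fin T → List Bool)

/-- The names of all the bits of all the blocks. -/
noncomputable def cmb (p : Fin T × (Jx ℓ × Fin 4)) : List Bool := bn ℓ (inp p.1) p.2

/-- The contribution of the first player. -/
def zA {ι : Type} (x : ι → Bool × Bool) (c : ι × Fin 4) : Bool :=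
  if c.2 = 0 then (x c.1).1 else if c.2 = 1 then (x c.1).2 else false

/-- The contribution of the second player. -/
def zB {ι : Type} (y : ι → Bool × Bool) (c : ι × Fin 4) : Bool :=
  if c.2 = 2 then (y c.1).1 else if c.2 = 3 then (y c.1).2 else false

/-- The oracle given by the inputs of both players. -/
noncomputable def orc (A₀ : List Bool → Bool) (x y : Fin T → Jx ℓ → Bool × Bool) :
    List Bool → Bool :=
  glue (cmb ℓ inp) A₀ fun p => zA (x p.1) p.2 || zB (y p.1) p.2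

variable {ℓ} {inp}

lemma cmb_inj {n : ℕ} (hi : Function.Injective inp) (hl : ∀ i, (inp i).length = n) :
    Function.Injective (cmb ℓ inp) := by
  rintro ⟨i, c⟩ ⟨j, d⟩ h
  unfold cmb bn at h
  have h1 := List.append_inj h (by rw [hl, hl])
  have h2 : i = j := hi h1.1
  have h3 : c = d := Alg.code_inj ℓ h1.2
  rw [h2, h3]

lemma fst_orc {n : ℕ} (hi : Function.Injective inp) (hl : ∀ i, (inp i).length = n)
    (A₀ : List Bool → Bool) (x y : Fin T → Jx ℓ → Bool × Bool) (i : Fin T) :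
    fstPart (bn ℓ (inp i)) (orc ℓ inp A₀ x y) = x i := by
  have h : ∀ c, orc ℓ inp A₀ x y (bn ℓ (inp i) c) = (zA (x i) c || zB (y i) c) := fun c =>
    glue_apply (cmb_inj hi hl) A₀ (fun p => zA (x p.1) p.2 || zB (y p.1) p.2) (i, c)
  funext c
  simp only [fstPart, h]
  simp [zA, zB]

lemma snd_orc {n : ℕ} (hi : Function.Injective inp) (hl : ∀ i, (inp i).length = n)
    (A₀ : List Bool → Bool) (x y : Fin T → Jx ℓ → Bool × Bool) (i : Fin T) :
    sndPart (bn ℓ (inp i)) (orc ℓ inp A₀ x y) = y i := by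
  have h : ∀ c, orc ℓ inp A₀ x y (bn ℓ (inp i) c) = (zA (x i) c || zB (y i) c) := fun c =>
    glue_apply (cmb_inj hi hl) A₀ (fun p => zA (x p.1) p.2 || zB (y p.1) p.2) (i, c)
  funext c
  simp only [sndPart, h]
  simp [zA, zB]

lemma bval_orc {n : ℕ} (hi : Function.Injective inp) (hl : ∀ i, (inp i).length = n)
    (A₀ : List Bool → Bool) (x y : Fin T → Jx ℓ → Bool × Bool) (i : Fin T) :
    bval ℓ (orc ℓ inp A₀ x y) (inp i) = lift (fb ℓ) (x i) (y i) := by
  unfold bval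
  rw [fst_orc hi hl, snd_orc hi hl]

lemma orc_outside {n : ℕ} (hl : ∀ i, (inp i).length = n) (A₀ : List Bool → Bool)
    (S₀ : Finset (List Bool)) (h1 : S₀.sup List.length < n) (x y : Fin T → Jx ℓ → Bool × Bool) :
    ∀ s ∈ S₀, orc ℓ inp A₀ x y s = A₀ s := by
  intro s hs
  unfold orc glue
  rw [dif_neg]
  rintro ⟨c, hc⟩
  have h3 : s.length ≤ S₀.sup List.length := le_sup (f := List.length) hs
  unfold cmb at hc
  rw [← hc, length_bn, hl] at h3
  omega

variable (ℓ) (inp)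

/-- The share of the first player. -/
noncomputable def shA (x : Fin T → Jx ℓ → Bool × Bool) : List Bool → Bool :=
  glue (cmb ℓ inp) (fun _ => false) fun p => zA (x p.1) p.2

/-- The share of the second player. -/
noncomputable def shB (A₀ : List Bool → Bool) (y : Fin T → Jx ℓ → Bool × Bool) :
    List Bool → Bool :=
  glue (cmb ℓ inp) A₀ fun p => zB (y p.1) p.2

variable {ℓ} {inp}

lemma orc_eq (A₀ : List Bool → Bool) (x y : Fin T → Jx ℓ → Bool × Bool) (s : List Bool) :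
    orc ℓ inp A₀ x y s = (shA ℓ inp x s || shB ℓ inp A₀ y s) := by
  unfold orc shA shB glue
  by_cases h : ∃ c, cmb ℓ inp c = s
  · simp only [dif_pos h]
  · simp only [dif_neg h, Bool.false_or]

lemma shares_disj (A₀ : List Bool → Bool) (x y : Fin T → Jx ℓ → Bool × Bool) (s : List Bool) :
    shA ℓ inp x s = false ∨ shB ℓ inp A₀ y s = false := by
  unfold shA shB glue
  by_cases h : ∃ c, cmb ℓ inp c = s
  · simp only [dif_pos h]
    obtain ⟨j, i, k⟩ := h.choose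
    fin_cases k <;> simp [zA, zB]
  · simp only [dif_neg h, true_or]

end

/-! ### The integer valued functions of the verifiers -/

section

variable {X Y : Type} {O : X → Y → List Bool → Bool} {sA : X → List Bool → Bool}
  {sB : Y → List Bool → Bool}

lemma exists_tPP (hTp : S_Tp) (h1 : ∀ a b s, O a b s = (sA a s || sB b s))
    (h2 : ∀ a b s, sA a s = false ∨ sB b s = false) (W : AlgVerifier) (n c : ℕ) (hc : W.c = c)
    (x : List Bool) (hx : x.length = n) : ∃ t : X → Y → ℝ,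
    Mul (2 ^ (4 * (n ^ c + c + 1) ^ 3)) t ∧
    (∀ a b, ∃ m : ℤ, m ≠ 0 ∧ |(m : ℝ)| ≤ 2 ^ (4 * (n ^ c + c + 1) ^ 3) ∧ t a b = m) ∧
    ∀ a b, (1 / 2 < W.ppProb (O a b) x → 0 < t a b) ∧ (W.ppProb (O a b) x ≤ 1 / 2 → t a b < 0) := by
  subst hx hc
  set N := x.length ^ W.c + W.c with hN
  have hq : ∀ y ρ, (W.tree x y ρ).AllQ fun q => q.m ≤ 2 ^ N := fun y ρ =>
    (W.query_le x y ρ).mono fun q hq => hq.1
  have hev : ∀ y ρ a b, (toProt N sA sB (W.tree x y ρ)).eval a b =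
      (W.tree x y ρ).eval (AQ.ans (O a b)) := fun y ρ a b =>
    eval_toProt (h1 a b) (h2 a b) (hq y ρ)
  have hR : W.msg x.length + W.coins x.length ≤ 2 * N := by
    have h4 := W.msg_le x.length
    have h5 := W.coins_le x.length
    omega
  obtain ⟨t, ht1, ht2, ht3⟩ := hTp X Y (W.msg x.length + W.coins x.length) N
    (fun ρ => toProt N sA sB (W.tree x ((Fin.appendEquiv _ _).symm ρ).1
      ((Fin.appendEquiv _ _).symm ρ).2)) (fun ρ => cost_toProt (W.depth_le x _ _)) hR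
  refine ⟨t, ht1, ht2, fun a b => ?_⟩
  have h6 := ht3 a b
  simp only [hev] at h6
  rw [Alg.ppProb_eq]
  exact h6

lemma exists_tMA (hTm : S_Tm) (h1 : ∀ a b s, O a b s = (sA a s || sB b s))
    (h2 : ∀ a b s, sA a s = false ∨ sB b s = false) (W : AlgVerifier) (n c : ℕ) (hc : W.c = c)
    (x : List Bool) (hx : x.length = n) : ∃ t : X → Y → ℝ,
    Mul (2 ^ (4 * (n ^ c + c + 1) ^ 3)) t ∧
    (∀ a b, ∃ m : ℤ, m ≠ 0 ∧ |(m : ℝ)| ≤ 2 ^ (4 * (n ^ c + c + 1) ^ 3) ∧ t a b = m) ∧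
    ∀ a b, ((∃ y, 2 / 3 ≤ W.maProb (O a b) x y) → 0 < t a b) ∧
      ((∀ y, W.maProb (O a b) x y ≤ 1 / 3) → t a b < 0) := by
  subst hx hc
  set N := x.length ^ W.c + W.c with hN
  have hq : ∀ y ρ, (W.tree x y ρ).AllQ fun q => q.m ≤ 2 ^ N := fun y ρ =>
    (W.query_le x y ρ).mono fun q hq => hq.1
  have hev : ∀ y ρ a b, (toProt N sA sB (W.tree x y ρ)).eval a b =
      (W.tree x y ρ).eval (AQ.ans (O a b)) := fun y ρ a b =>
    eval_toProt (h1 a b) (h2 a b) (hq y ρ)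
  obtain ⟨t, ht1, ht2, ht3⟩ := hTm X Y (W.msg x.length) (W.coins x.length) N
    (fun y ρ => toProt N sA sB (W.tree x y ρ)) (fun y ρ => cost_toProt (W.depth_le x _ _))
    (W.msg_le x.length) (W.coins_le x.length)
  refine ⟨t, ht1, ht2, fun a b => ?_⟩
  have h6 := ht3 a b
  simp only [hev] at h6
  exact h6

end

/-! ### Numbers -/

/-- Advice strings. -/
abbrev Ads (m : ℕ) : Type := (j : Fin (m + 1)) × (Fin (j : ℕ) → Bool)

lemma card_Ads (m : ℕ) : Fintype.card (Ads m) + 1 = 2 ^ (m + 1) := by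
  rw [Fintype.card_sigma]
  simp only [Fintype.card_fun, Fintype.card_bool, Fintype.card_fin]
  rw [Fin.sum_univ_eq_sum_range (fun i => 2 ^ i) (m + 1)]
  have := Nat.geomSum_eq (m := 2) le_rfl (m + 1)
  rw [this]
  have h1 : 1 ≤ 2 ^ (m + 1) := Nat.one_le_two_pow
  simp
  omega

private lemma numbers_aux (T m : ℕ) : (2 : ℝ) ^ T * (2 ^ m * (1 / 2 ^ (3 + T + m))) = 1 / 8 := by
  have h1 : (0 : ℝ) < 2 ^ T := by positivity
  have h2 : (0 : ℝ) < 2 ^ m := by positivity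
  rw [pow_add, pow_add]
  field_simp
  norm_num

lemma numbers (T r q D an : ℕ) (hT : T = an + 3) (hq : q ≤ 2 ^ (an + 1)) (n : ℕ)
    (hD : D = 2 ^ (an + n) / 9)
    (hn : 9 * (9 + 4 * T + 16 * ((2 * (r + 1) * (2 * r + 1) * T + 1) * T)) ≤ 2 ^ n) :
    6 * ((T : ℝ) * (2 ^ ((2 * (r + 1) * (r + r + 1) * T + 1) * T * q + T) * √(2 / 2 ^ D))) < 1 := by
  set P := (2 * (r + 1) * (2 * r + 1) * T + 1) * T with hP
  have hP' : (2 * (r + 1) * (r + r + 1) * T + 1) * T = P := by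
    rw [hP]
    ring
  rw [hP']
  set m := P * q + T with hm
  have h1 : m ≤ P * 2 ^ (an + 1) + T := by
    rw [hm]
    exact Nat.add_le_add_right (Nat.mul_le_mul_left _ hq) _
  have h2 : 2 ^ (an + n) < 9 * (D + 1) := by
    rw [hD]
    omega
  have h3 : 9 * (9 + 4 * T + 16 * P) * 2 ^ an ≤ 2 ^ (an + n) := by
    rw [pow_add, mul_comm (2 ^ an)]
    exact Nat.mul_le_mul_right _ hn
  have h4 : 9 + 4 * T + 16 * P * 2 ^ an ≤ (9 + 4 * T + 16 * P) * 2 ^ an := by
    have h5 : 1 ≤ 2 ^ an := Nat.one_le_two_pow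
    nlinarith
  have h6 : 9 + 4 * T + 16 * P * 2 ^ an < D + 1 := by
    have h7 : 9 * (9 + 4 * T + 16 * P * 2 ^ an) < 9 * (D + 1) := by
      calc 9 * (9 + 4 * T + 16 * P * 2 ^ an) ≤ 9 * ((9 + 4 * T + 16 * P) * 2 ^ an) :=
            Nat.mul_le_mul_left _ h4
        _ = 9 * (9 + 4 * T + 16 * P) * 2 ^ an := by ring
        _ ≤ 2 ^ (an + n) := h3
        _ < 9 * (D + 1) := h2
    omega
  have h8 : 7 + 2 * T + 2 * m ≤ D := by
    have h9 : 2 * m ≤ 4 * (P * 2 ^ an) + 2 * T := by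
      have h10 : P * 2 ^ (an + 1) = 2 * (P * 2 ^ an) := by rw [pow_succ]; ring
      omega
    have h11 : 16 * P * 2 ^ an = 16 * (P * 2 ^ an) := by ring
    omega
  have h12 : (T : ℝ) ≤ 2 ^ T := by
    exact_mod_cast (Nat.lt_two_pow_self (n := T)).le
  have h13 : √(2 / 2 ^ D) ≤ 1 / 2 ^ (3 + T + m) := by
    rw [Real.sqrt_le_left (by positivity), div_pow, one_pow, ← pow_mul,
      div_le_div_iff₀ (by positivity) (by positivity), one_mul]
    calc (2 : ℝ) * 2 ^ ((3 + T + m) * 2) = 2 ^ (7 + 2 * T + 2 * m) := by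
          rw [← pow_succ']
          congr 1
          ring
      _ ≤ 2 ^ D := pow_le_pow_right₀ (by norm_num) h8
  have h14 : (T : ℝ) * (2 ^ m * √(2 / 2 ^ D)) ≤ 2 ^ T * (2 ^ m * (1 / 2 ^ (3 + T + m))) := by
    gcongr
  have h15 : (2 : ℝ) ^ T * (2 ^ m * (1 / 2 ^ (3 + T + m))) = 1 / 8 := numbers_aux T m
  rw [h15] at h14
  linarith

end Pool.Agent.Lib.MP_ff3ed7_lc.Adv
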