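import Pool.Agent.Lib.MP_ff3ed7_lc.Adv.Spec

/-! The core inequality (helper47). -/

set_option autoImplicit false

open Finset

namespace Pool.Agent.Lib.MP_ff3ed7_lc.Adv

private theorem co_prod {I : Type} (s : Finset I) (f : I → ℝ) (h : ∀ i ∈ s, 1 ≤ f i) :
    1 ≤ ∏ i ∈ s, f i :=
  Finset.prod_induction f (fun x => 1 ≤ x) (fun _ _ ha hb => one_le_mul_of_one_le_of_one_le ha hb)
    le_rfl h

private theorem co_hh_one (r : ℕ) (t : ℝ) (ht : 1 ≤ t) : 1 ≤ hh r t := by
  unfold hh
  refine co_prod _ _ fun i _ => ?_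
  have h1 : (0 : ℝ) ≤ 2 ^ i := by positivity
  nlinarith

private theorem co_bern (T : ℕ) : (1 : ℝ) / 2 ≤ (1 - 1 / 9 ^ T) ^ T := by
  have h1 : (1 : ℝ) + (T : ℝ) * (-(1 / 9 ^ T)) ≤ (1 + -(1 / 9 ^ T)) ^ T := by
    refine one_add_mul_le_pow ?_ T
    have h2 : (1 : ℝ) / 9 ^ T ≤ 1 := by
      rw [div_le_one (by positivity)]
      exact one_le_pow₀ (by norm_num)
    linarith
  have h3 : (2 : ℝ) * T ≤ 9 ^ T := by
    have h4 : 2 * T ≤ 9 ^ T := by
      induction T with
      | zero => simp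
      | succ n ih =>
        have h5 : 1 ≤ 9 ^ n := Nat.one_le_pow _ _ (by norm_num)
        rw [pow_succ]
        have := ih (by
          refine one_add_mul_le_pow ?_ n
          have h2 : (1 : ℝ) / 9 ^ n ≤ 1 := by
            rw [div_le_one (by positivity)]
            exact one_le_pow₀ (by norm_num)
          linarith)
        omega
    exact_mod_cast h4
  have h6 : (T : ℝ) * (1 / 9 ^ T) ≤ 1 / 2 := by
    rw [mul_one_div, div_le_div_iff₀ (by positivity) (by norm_num)]
    linarith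
  have h7 : (1 + -(1 / 9 ^ T) : ℝ) = 1 - 1 / 9 ^ T := by ring
  rw [h7] at h1
  linarith

/-- one factor -/
private theorem co_fac (T : ℕ) (u w : ℝ) (hw : 0 ≤ w) (h : 9 ^ T * w ≤ u) :
    (1 - 1 / 9 ^ T) * (u + w) ≤ u := by
  have h9 : (0 : ℝ) < 9 ^ T := by positivity
  have h1 : (1 - 1 / 9 ^ T) * (u + w) = u - (u - (9 ^ T - 1) * w) / 9 ^ T := by
    field_simp
    ring
  rw [h1]
  have h2 : 0 ≤ (u - (9 ^ T - 1) * w) / 9 ^ T := by
    refine div_nonneg ?_ h9.le
    nlinarith
  linarith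

private theorem co_mass {Blk X Y : Type} [Fintype Blk] [DecidableEq Blk] [Fintype X] [Fintype Y]
    (w : Blk → X → Y → ℝ) (h : ∀ x, ∑ a, ∑ b, w x a b = 1) :
    ∑ a : Blk → X, ∑ b : Blk → Y, ∏ x, w x (a x) (b x) = 1 := by
  have h1 : ∀ a : Blk → X, ∑ b : Blk → Y, ∏ x, w x (a x) (b x) = ∏ x, ∑ b, w x (a x) b := by
    intro a
    rw [Finset.prod_univ_sum, Fintype.piFinset_univ]
  simp_rw [h1]
  have h2 := Finset.prod_univ_sum (fun _ : Blk => (univ : Finset X)) (fun x a => ∑ b, w x a b)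
  rw [Fintype.piFinset_univ] at h2
  rw [← h2]
  exact Finset.prod_eq_one fun x _ => h x

private theorem co_theta {Blk : Type} [Fintype Blk] [DecidableEq Blk] (u w : Blk → ℝ) :
    ∑ θ : Blk → Bool, ∏ x, (if θ x = true then u x else w x) = ∏ x, (u x + w x) := by
  have h2 := Finset.prod_univ_sum (fun _ : Blk => (univ : Finset Bool))
    (fun x c => if c = true then u x else w x)
  rw [Fintype.piFinset_univ] at h2
  rw [← h2]
  refine Finset.prod_congr rfl fun x _ => ?_
  rw [Fintype.sum_bool]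
  simp

theorem tCore : S_Sgn → S_Mc → S_Md → S_Hyb → S_Core := by
  intro hSgn hMc hMd hHyb Blk X Y Ad _ _ _ _ _ _ w1 w0 ε F t r b h1 h0 s1 s0 f1 f0 hBd hint hMul
    hcor hcard
  obtain ⟨g1, g2, -⟩ := hSgn
  obtain ⟨mc1, mc2, mc3, -, mc5, -⟩ := hMc
  obtain ⟨md1, md2, md3, md4⟩ := hMd
  set T := Fintype.card Blk with hT
  set q := Fintype.card Ad with hq
  set E := 2 * (r + 1) * (b + r + 1) * T with hE
  set U : Ad → Blk → (Blk → X) → (Blk → Y) → ℝ := fun s x a b => hh r (t s x a b) ^ T with hU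
  set W : Ad → Blk → (Blk → X) → (Blk → Y) → ℝ := fun s x a b => hh r (-(t s x a b)) ^ T with hW
  set Sg : (Blk → Bool) → Ad → Blk → (Blk → X) → (Blk → Y) → ℝ := fun θ s x a b =>
    if θ x = true then U s x a b else W s x a b with hSg
  set G : Ad → (Blk → X) → (Blk → Y) → ℝ := fun s a b => ∏ x, (U s x a b + W s x a b) with hG
  set Den : (Blk → X) → (Blk → Y) → ℝ := fun a b => ∏ s, G s a b with hDen
  set N : (Blk → Bool) → (Blk → X) → (Blk → Y) → ℝ := fun θ a b =>
    ∑ s, (∏ x, Sg θ s x a b) * ∏ s' ∈ univ.erase s, G s' a b with hN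
  have hU0 : ∀ s x a b, 0 ≤ U s x a b := fun s x a b => pow_nonneg (g1 _ _) _
  have hW0 : ∀ s x a b, 0 ≤ W s x a b := fun s x a b => pow_nonneg (g1 _ _) _
  have hUW : ∀ s x a b, 1 ≤ U s x a b + W s x a b := by
    intro s x a b
    obtain ⟨m, hm, -, hm2⟩ := hint s x a b
    rcases lt_or_gt_of_ne hm with h | h
    · have h2 : (1 : ℝ) ≤ -(t s x a b) := by
        rw [hm2]
        have : m ≤ -1 := by omega
        have h3 : (m : ℝ) ≤ -1 := by exact_mod_cast this
        linarith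
      have h3 : 1 ≤ W s x a b := one_le_pow₀ (co_hh_one r _ h2)
      linarith [hU0 s x a b]
    · have h2 : (1 : ℝ) ≤ t s x a b := by
        rw [hm2]
        exact_mod_cast h
      have h3 : 1 ≤ U s x a b := one_le_pow₀ (co_hh_one r _ h2)
      linarith [hW0 s x a b]
  have hG1 : ∀ s a b, 1 ≤ G s a b := fun s a b =>
    co_prod _ _ fun x _ => hUW s x a b
  have hD1 : ∀ a b, 1 ≤ Den a b := fun a b => co_prod _ _ fun s _ => hG1 s a b
  have hSg0 : ∀ θ s x a b, 0 ≤ Sg θ s x a b := by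
    intro θ s x a b
    simp only [hSg]
    split_ifs
    · exact hU0 _ _ _ _
    · exact hW0 _ _ _ _
  -- (i)
  have hi : ∀ a b, ∑ θ, N θ a b = q * Den a b := by
    intro a b
    simp only [hN]
    rw [Finset.sum_comm]
    have : ∀ s : Ad, ∑ θ : Blk → Bool, (∏ x, Sg θ s x a b) * ∏ s' ∈ univ.erase s, G s' a b =
        Den a b := by
      intro s
      rw [← Finset.sum_mul]
      have h2 := co_theta (fun x => U s x a b) (fun x => W s x a b)
      simp only [hSg]
      rw [h2]
      exact Finset.mul_prod_erase univ (fun s => G s a b) (Finset.mem_univ s)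
    rw [Finset.sum_congr rfl fun s _ => this s, Finset.sum_const, Finset.card_univ, nsmul_eq_mul]
  -- (ii)
  have hii : ∀ θ a b, (∀ x, F (a x) (b x) = θ x) → Den a b / 2 ≤ N θ a b := by
    intro θ a b hθ
    obtain ⟨s, hs⟩ := hcor a b
    have hx : ∀ x, (1 - 1 / 9 ^ T) * (U s x a b + W s x a b) ≤ Sg θ s x a b := by
      intro x
      obtain ⟨m, hm, hm1, hm2⟩ := hint s x a b
      cases hθx : θ x
      · have h2 := (hs x).2 (by rw [hθ x, hθx])
        have h3 : Sg θ s x a b = W s x a b := by simp only [hSg, hθx]; simp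
        rw [h3, add_comm]
        refine co_fac T _ _ (hU0 _ _ _ _) ?_
        have h4 : (1 : ℝ) ≤ -(t s x a b) := by
          rw [hm2] at h2 ⊢
          have h5 : m < 0 := by exact_mod_cast h2
          have : m ≤ -1 := by omega
          have h3 : (m : ℝ) ≤ -1 := by exact_mod_cast this
          linarith
        have h5 : -(t s x a b) ≤ 2 ^ r := by
          rw [hm2]
          exact (neg_le_abs _).trans hm1
        have h6 := g2 r _ h4 h5
        rw [neg_neg] at h6
        simp only [hU, hW]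
        rw [← mul_pow]
        exact pow_le_pow_left₀ (by linarith [g1 r (t s x a b)]) h6 T
      · have h2 := (hs x).1 (by rw [hθ x, hθx])
        have h3 : Sg θ s x a b = U s x a b := by simp only [hSg, hθx]; simp
        rw [h3]
        refine co_fac T _ _ (hW0 _ _ _ _) ?_
        have h4 : (1 : ℝ) ≤ t s x a b := by
          rw [hm2] at h2 ⊢
          have h5 : 0 < m := by exact_mod_cast h2
          exact_mod_cast h5
        have h5 : t s x a b ≤ 2 ^ r := by
          rw [hm2]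
          exact (le_abs_self _).trans hm1
        have h6 := g2 r _ h4 h5
        simp only [hU, hW]
        rw [← mul_pow]
        exact pow_le_pow_left₀ (by linarith [g1 r (-(t s x a b))]) h6 T
    have h9 : (0 : ℝ) ≤ 1 - 1 / 9 ^ T := by
      have h2 : (1 : ℝ) / 9 ^ T ≤ 1 := by
        rw [div_le_one (by positivity)]
        exact one_le_pow₀ (by norm_num)
      linarith
    have hp : G s a b / 2 ≤ ∏ x, Sg θ s x a b := by
      have h2 : ∏ x, ((1 - 1 / 9 ^ T) * (U s x a b + W s x a b)) ≤ ∏ x, Sg θ s x a b :=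
        Finset.prod_le_prod (fun x _ => mul_nonneg h9 (by linarith [hUW s x a b]))
          (fun x _ => hx x)
      rw [Finset.prod_mul_distrib, Finset.prod_const, Finset.card_univ, ← hT] at h2
      have h3 := co_bern T
      have h4 : (0 : ℝ) ≤ G s a b := by linarith [hG1 s a b]
      have h5 : (1 : ℝ) / 2 * G s a b ≤ (1 - 1 / 9 ^ T) ^ T * ∏ x, (U s x a b + W s x a b) :=
        mul_le_mul_of_nonneg_right h3 h4
      linarith
    have hterm : ∀ s', 0 ≤ (∏ x, Sg θ s' x a b) * ∏ s'' ∈ univ.erase s', G s'' a b := by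
      intro s'
      refine mul_nonneg (Finset.prod_nonneg fun x _ => hSg0 _ _ _ _ _)
        (Finset.prod_nonneg fun s'' _ => ?_)
      linarith [hG1 s'' a b]
    have h2 : (∏ x, Sg θ s x a b) * ∏ s' ∈ univ.erase s, G s' a b ≤ N θ a b :=
      Finset.single_le_sum (f := fun s => (∏ x, Sg θ s x a b) * ∏ s' ∈ univ.erase s, G s' a b)
        (fun s' _ => hterm s') (Finset.mem_univ s)
    refine le_trans ?_ h2
    have h3 : Den a b = G s a b * ∏ s' ∈ univ.erase s, G s' a b :=
      (Finset.mul_prod_erase univ (fun s => G s a b) (Finset.mem_univ s)).symm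
    rw [h3]
    have h4 : (0 : ℝ) ≤ ∏ s' ∈ univ.erase s, G s' a b :=
      Finset.prod_nonneg fun s' _ => by linarith [hG1 s' a b]
    have h5 := mul_le_mul_of_nonneg_right hp h4
    linarith
  -- (iii)
  have hwt0 : ∀ (θ : Blk → Bool) (a : Blk → X) (b : Blk → Y),
      0 ≤ ∏ x, (if θ x = true then w1 else w0) (a x) (b x) := by
    intro θ a b
    refine Finset.prod_nonneg fun x _ => ?_
    split_ifs
    · exact h1 _ _
    · exact h0 _ _
  have hiii : ∀ θ, Ex w1 w0 θ Den / 2 ≤ Ex w1 w0 θ (N θ) := by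
    intro θ
    unfold Ex
    rw [Finset.sum_div]
    refine Finset.sum_le_sum fun a _ => ?_
    rw [Finset.sum_div]
    refine Finset.sum_le_sum fun b _ => ?_
    by_cases hz : ∏ x, (if θ x = true then w1 else w0) (a x) (b x) = 0
    · rw [hz]
      simp
    · have hθ : ∀ x, F (a x) (b x) = θ x := by
        intro x
        have h2 : (if θ x = true then w1 else w0) (a x) (b x) ≠ 0 :=
          fun h => hz (Finset.prod_eq_zero (Finset.mem_univ x) h)
        cases hθx : θ x
        · rw [hθx] at h2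
          exact f0 _ _ (by simpa using h2)
        · rw [hθx] at h2
          exact f1 _ _ (by simpa using h2)
      rw [mul_div_assoc]
      exact mul_le_mul_of_nonneg_left (hii θ a b hθ) (hwt0 θ a b)
  -- the bounds
  have hq2 : (q : ℝ) ≤ 2 ^ T := by
    have : q ≤ 2 ^ T := by omega
    exact_mod_cast this
  have hMU : ∀ s x, Mul (2 ^ E) (U s x) := by
    intro s x
    have h2 := md3 _ _ _ _ T (md4 _ _ b r _ (hMul s x)).1
    rw [← pow_mul] at h2
    exact h2
  have hMW : ∀ s x, Mul (2 ^ E) (W s x) := by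
    intro s x
    have h2 := md3 _ _ _ _ T (md4 _ _ b r _ (hMul s x)).2
    rw [← pow_mul] at h2
    exact h2
  have hE1 : (2 : ℝ) ^ E ≤ 2 ^ (E + 1) := pow_le_pow_right₀ (by norm_num) (by omega)
  have hMS : ∀ θ s x, Mul (2 ^ (E + 1)) (Sg θ s x) := by
    intro θ s x
    cases hθx : θ x
    · have h3 : Sg θ s x = W s x := by
        funext a b
        simp only [hSg, hθx]
        simp
      rw [h3]
      exact mc5 _ _ _ _ _ (hMW s x) hE1
    · have h3 : Sg θ s x = U s x := by
        funext a b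
        simp only [hSg, hθx]
        simp
      rw [h3]
      exact mc5 _ _ _ _ _ (hMU s x) hE1
  have hMUW : ∀ s x, Mul (2 ^ (E + 1)) (fun a b => U s x a b + W s x a b) := by
    intro s x
    have h2 := mc2 _ _ _ _ _ _ (hMU s x) (hMW s x)
    have h3 : (2 : ℝ) ^ E + 2 ^ E = 2 ^ (E + 1) := by ring
    rwa [h3] at h2
  have hMPS : ∀ θ s, Mul (2 ^ ((E + 1) * T)) (fun a b => ∏ x, Sg θ s x a b) := by
    intro θ s
    have h2 := md2 _ _ Blk univ (fun _ => 2 ^ (E + 1)) (fun x => Sg θ s x) fun x _ => hMS θ s x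
    rw [Finset.prod_const, Finset.card_univ, ← pow_mul] at h2
    exact h2
  have hMG : ∀ s, Mul (2 ^ ((E + 1) * T)) (G s) := by
    intro s
    have h2 := md2 _ _ Blk univ (fun _ => 2 ^ (E + 1)) (fun x a b => U s x a b + W s x a b)
      fun x _ => hMUW s x
    rw [Finset.prod_const, Finset.card_univ, ← pow_mul] at h2
    exact h2
  have hle : (2 : ℝ) ^ ((E + 1) * T * q) ≤ 2 ^ ((E + 1) * T * q + T) :=
    pow_le_pow_right₀ (by norm_num) (by omega)
  have hMD : Mul (2 ^ ((E + 1) * T * q + T)) Den := by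
    have h2 := md2 _ _ Ad univ (fun _ => 2 ^ ((E + 1) * T)) G fun s _ => hMG s
    rw [Finset.prod_const, Finset.card_univ, ← pow_mul] at h2
    exact mc5 _ _ _ _ _ h2 hle
  have hMN : ∀ θ, Mul (2 ^ ((E + 1) * T * q + T)) (N θ) := by
    intro θ
    have h2 : ∀ s ∈ (univ : Finset Ad), Mul (2 ^ ((E + 1) * T * q)) (fun a b =>
        (∏ x, Sg θ s x a b) * ∏ s' ∈ univ.erase s, G s' a b) := by
      intro s _
      have h3 := md2 _ _ Ad (univ.erase s) (fun _ => 2 ^ ((E + 1) * T)) G fun s _ => hMG s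
      have h4 := mc3 _ _ _ _ _ _ (hMPS θ s) h3
      rw [Finset.prod_const, Finset.card_erase_of_mem (Finset.mem_univ s), Finset.card_univ,
        ← hq] at h4
      have hq1 : 1 ≤ q := Fintype.card_pos_iff.2 ⟨s⟩
      obtain ⟨q', hq'⟩ : ∃ q', q = q' + 1 := ⟨q - 1, by omega⟩
      rw [hq'] at h4 ⊢
      have h5 : (2 : ℝ) ^ ((E + 1) * T) * (2 ^ ((E + 1) * T)) ^ (q' + 1 - 1) =
          2 ^ ((E + 1) * T * (q' + 1)) := by
        rw [Nat.add_sub_cancel, ← pow_mul, ← pow_add]
        congr 1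
        ring
      rwa [h5] at h4
    have h6 := md1 _ _ Ad univ (fun _ => 2 ^ ((E + 1) * T * q)) _ h2
    rw [Finset.sum_const, Finset.card_univ, ← hq, nsmul_eq_mul] at h6
    refine mc5 _ _ _ _ _ h6 ?_
    rw [pow_add, mul_comm]
    exact mul_le_mul_of_nonneg_left hq2 (by positivity)
  set err : ℝ := (T : ℝ) * (2 ^ ((E + 1) * T * q + T) * ε) with herr
  have hyD : ∀ θ, |Ex w1 w0 θ Den - Ex w1 w0 (fun _ => false) Den| ≤ err := fun θ =>
    hHyb Blk X Y w1 w0 ε _ Den h1 h0 s1 s0 hBd hMD θ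
  have hyN : ∀ θ, |Ex w1 w0 θ (N θ) - Ex w1 w0 (fun _ => false) (N θ)| ≤ err := fun θ =>
    hHyb Blk X Y w1 w0 ε _ (N θ) h1 h0 s1 s0 hBd (hMN θ) θ
  set e := Ex w1 w0 (fun _ => false) Den with he
  have he1 : 1 ≤ e := by
    have h2 := co_mass (Blk := Blk) (fun _ => w0) (fun _ => s0)
    rw [← h2, he]
    unfold Ex
    refine Finset.sum_le_sum fun a _ => Finset.sum_le_sum fun b _ => ?_
    have h3 := hwt0 (fun _ => false) a b
    have h4 := mul_le_mul_of_nonneg_left (hD1 a b) h3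
    rw [mul_one] at h4
    refine le_trans (le_of_eq ?_) h4
    simp
  have hsum : ∑ θ : Blk → Bool, Ex w1 w0 (fun _ => false) (N θ) = q * e := by
    rw [he]
    unfold Ex
    rw [Finset.sum_comm, Finset.mul_sum]
    refine Finset.sum_congr rfl fun a _ => ?_
    rw [Finset.sum_comm, Finset.mul_sum]
    refine Finset.sum_congr rfl fun b _ => ?_
    rw [← Finset.mul_sum, hi]
    ring
  have hcθ : ((univ : Finset (Blk → Bool)).card : ℝ) = 2 ^ T := by
    rw [Finset.card_univ, Fintype.card_fun, Fintype.card_bool]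
    push_cast
    rfl
  have hL : (2 : ℝ) ^ T * ((e - err) / 2) ≤ ∑ θ : Blk → Bool, Ex w1 w0 θ (N θ) := by
    rw [← hcθ, ← nsmul_eq_mul, ← Finset.sum_const]
    refine Finset.sum_le_sum fun θ _ => ?_
    have h2 := hiii θ
    have h3 := (abs_le.1 (hyD θ)).1
    linarith
  have hR : ∑ θ : Blk → Bool, Ex w1 w0 θ (N θ) ≤ q * e + 2 ^ T * err := by
    rw [← hsum, ← hcθ, ← nsmul_eq_mul, ← Finset.sum_const, ← Finset.sum_add_distrib]
    refine Finset.sum_le_sum fun θ _ => ?_
    have h3 := (abs_le.1 (hyN θ)).2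
    linarith
  have h4q : 4 * (q : ℝ) ≤ 2 ^ T := by exact_mod_cast hcard
  have hpos : (0 : ℝ) < 2 ^ T := by positivity
  have hfin : (q : ℝ) * e ≤ 2 ^ T / 4 * e := by
    refine mul_le_mul_of_nonneg_right ?_ (by linarith)
    linarith
  have hlast : (2 : ℝ) ^ T * (e / 4) ≤ 2 ^ T * (3 / 2 * err) := by
    have e1 : (2 : ℝ) ^ T * ((e - err) / 2) = 2 ^ T * (e / 2) - 2 ^ T * err / 2 := by ring
    have e2 : (2 : ℝ) ^ T / 4 * e = 2 ^ T * (e / 4) := by ring
    have e3 : (2 : ℝ) ^ T * (3 / 2 * err) = 2 ^ T * err + 2 ^ T * err / 2 := by ring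
    have e4 : (2 : ℝ) ^ T * (e / 2) = 2 ^ T * (e / 4) + 2 ^ T * (e / 4) := by ring
    linarith
  have := le_of_mul_le_mul_left hlast hpos
  linarith

end Pool.Agent.Lib.MP_ff3ed7_lc.Adv
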