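import Pool.Agent.Lib.MP_ff3ed7_lc.AlgDefs

/-! Verifiers with advice. -/

namespace Pool.Agent.Lib.MP_ff3ed7_lc

/-- A verifier with access to the multilinear extensions of an oracle, which besides the input `x`
gets an advice string `h`.  The length of the message, the number of random bits, the number of
queries and the lengths of the queried points are bounded by `|x| ^ c + c`, and the number of
elements of the rings by `2 ^ (|x| ^ c + c)`.  There is no other restriction on its computing
power. -/
structure AdvVerifier where
  /-- length of the message -/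
  msg : ℕ → ℕ
  /-- number of random bits -/
  coins : ℕ → ℕ
  /-- the decision tree for the input `x` and the advice `h` -/
  tree : (x h : List Bool) → (Fin (msg x.length) → Bool) → (Fin (coins x.length) → Bool) →
    DTree AQ ℕ
  /-- the exponent of the polynomial bound -/
  c : ℕ
  msg_le : ∀ n, msg n ≤ n ^ c + c
  coins_le : ∀ n, coins n ≤ n ^ c + c
  depth_le : ∀ x h y ρ, (tree x h y ρ).DepthLE (x.length ^ c + c)
  query_le : ∀ x h y ρ, (tree x h y ρ).AllQ fun q =>
    q.m ≤ 2 ^ (x.length ^ c + c) ∧ q.pt.length ≤ x.length ^ c + c

/-- The verifier `W` with the advice string `h`. -/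
def AdvVerifier.fix (W : AdvVerifier) (h : List Bool) : AlgVerifier where
  msg := W.msg
  coins := W.coins
  tree x := W.tree x h
  c := W.c
  msg_le := W.msg_le
  coins_le := W.coins_le
  depth_le x := W.depth_le x h
  query_le x := W.query_le x h

/-- `W` with the advice `h n` for the inputs of length `n` is a Merlin-Arthur protocol for `L`
relative to the multilinear extensions of `A`. -/
def AdvVerifier.AcceptsMA (W : AdvVerifier) (h : ℕ → List Bool) (A : List Bool → Bool)
    (L : Set (List Bool)) : Prop :=
  ∀ x, (x ∈ L → ∃ y, 2 / 3 ≤ (W.fix (h x.length)).maProb A x y) ∧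
    (x ∉ L → ∀ y, (W.fix (h x.length)).maProb A x y ≤ 1 / 3)

/-- `W` with the advice `h n` for the inputs of length `n`, with both strings chosen at random, is
a `PP` machine for `L` relative to the multilinear extensions of `A`. -/
def AdvVerifier.AcceptsPP (W : AdvVerifier) (h : ℕ → List Bool) (A : List Bool → Bool)
    (L : Set (List Bool)) : Prop :=
  ∀ x, (x ∈ L → 1 / 2 < (W.fix (h x.length)).ppProb A x) ∧
    (x ∉ L → (W.fix (h x.length)).ppProb A x ≤ 1 / 2)

end Pool.Agent.Lib.MP_ff3ed7_lc
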