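import Pool.Agent.Lib.MP_ff3ed7_lc.Adv.Spec

set_option autoImplicit false

open Finset

namespace Pool.Agent.Lib.MP_ff3ed7_lc.Adv

private lemma arith (A C : ℕ) (hA : 1 ≤ A) (hC : 1 ≤ C) :
    9 * (9 + 4 * A + 16 * ((2 * (4 * C ^ 3 + 1) * (2 * (4 * C ^ 3) + 1) * A + 1) * A)) ≤
      13221 * (C ^ 6 * A ^ 2) := by
  have h1 : 1 ≤ C ^ 3 := Nat.one_le_pow _ _ hC
  have h6 : C ^ 6 = C ^ 3 * C ^ 3 := by ring
  rw [h6]
  obtain ⟨P, hP⟩ : ∃ P, P = C ^ 3 := ⟨_, rfl⟩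
  rw [← hP] at h1 ⊢
  have hQ : 1 ≤ P * P * A := Nat.mul_pos (Nat.mul_pos h1 h1) hA
  have e1 : 4 * P + 1 ≤ 5 * P := by omega
  have e2 : 2 * (4 * P) + 1 ≤ 9 * P := by omega
  have e3 : 2 * (4 * P + 1) * (2 * (4 * P) + 1) * A + 1 ≤ 91 * (P * P * A) := by
    have h : 2 * (4 * P + 1) * (2 * (4 * P) + 1) * A ≤ 2 * (5 * P) * (9 * P) * A := by gcongr
    calc 2 * (4 * P + 1) * (2 * (4 * P) + 1) * A + 1
        ≤ 2 * (5 * P) * (9 * P) * A + P * P * A := add_le_add h hQ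
      _ = 91 * (P * P * A) := by ring
  have e4 : 9 + 4 * A ≤ 13 * (P * P * A * A) := by
    have : A ≤ P * P * A * A := Nat.le_mul_of_pos_left A hQ
    omega
  calc 9 * (9 + 4 * A + 16 * ((2 * (4 * P + 1) * (2 * (4 * P) + 1) * A + 1) * A))
      ≤ 9 * (13 * (P * P * A * A) + 16 * (91 * (P * P * A) * A)) := by gcongr
    _ = 13221 * (P * P * A ^ 2) := by ring

theorem tGrow : S_Grow := by
  intro k c M a ha
  have h1 : Filter.Tendsto (fun n : ℕ => ((n : ℝ) ^ (6 * c + 2 * k + 1)) / 2 ^ n) Filter.atTop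
      (nhds 0) :=
    tendsto_pow_const_div_const_pow_of_one_lt (6 * c + 2 * k + 1) (by norm_num : (1 : ℝ) < 2)
  have h2 := h1.eventually (gt_mem_nhds (show (0 : ℝ) < 1 by norm_num))
  have h3 : ∀ᶠ n : ℕ in Filter.atTop, M < n ∧
    a n + 3 ≤ 2 ^ n ∧
    9 * (9 + 4 * (a n + 3) + 16 * ((2 * (4 * (n ^ c + c + 1) ^ 3 + 1) *
      (2 * (4 * (n ^ c + c + 1) ^ 3) + 1) * (a n + 3) + 1) * (a n + 3))) ≤ 2 ^ n := by
    filter_upwards [h2, Filter.eventually_ge_atTop (M + 13221 * ((c + 2) ^ 6 * (k + 4) ^ 2) + 1)]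
      with n hn1 hn2
    have hn0 : 1 ≤ n := by omega
    rw [div_lt_one (by positivity)] at hn1
    have h4 : n ^ (6 * c + 2 * k + 1) < 2 ^ n := by exact_mod_cast hn1
    have hA : a n + 3 ≤ (k + 4) * n ^ k := by
      have h5 : 1 ≤ n ^ k := Nat.one_le_pow _ _ hn0
      have h6 := ha n
      have h7 : k + 3 ≤ (k + 3) * n ^ k := Nat.le_mul_of_pos_right _ h5
      calc a n + 3 ≤ n ^ k + (k + 3) := by omega
        _ ≤ n ^ k + (k + 3) * n ^ k := by omega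
        _ = (k + 4) * n ^ k := by ring
    have hC : n ^ c + c + 1 ≤ (c + 2) * n ^ c := by
      have h5 : 1 ≤ n ^ c := Nat.one_le_pow _ _ hn0
      have h7 : c + 1 ≤ (c + 1) * n ^ c := Nat.le_mul_of_pos_right _ h5
      calc n ^ c + c + 1 ≤ n ^ c + (c + 1) * n ^ c := by omega
        _ = (c + 2) * n ^ c := by ring
    have h8 := arith (a n + 3) (n ^ c + c + 1) (by omega) (by omega)
    have h9 : 13221 * ((n ^ c + c + 1) ^ 6 * (a n + 3) ^ 2) ≤ 2 ^ n := by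
      calc 13221 * ((n ^ c + c + 1) ^ 6 * (a n + 3) ^ 2)
          ≤ 13221 * (((c + 2) * n ^ c) ^ 6 * ((k + 4) * n ^ k) ^ 2) := by gcongr
        _ = (13221 * ((c + 2) ^ 6 * (k + 4) ^ 2)) * (n ^ (6 * c + 2 * k)) := by
            rw [mul_pow, mul_pow, pow_add n, ← pow_mul, ← pow_mul, mul_comm c 6, mul_comm k 2]
            ring
        _ ≤ n * n ^ (6 * c + 2 * k) := by
            apply Nat.mul_le_mul_right
            omega
        _ = n ^ (6 * c + 2 * k + 1) := by ring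
        _ ≤ 2 ^ n := h4.le
    have h10 := h8.trans h9
    refine ⟨by omega, ?_, h10⟩
    refine le_trans ?_ h10
    omega
  obtain ⟨n0, hn0⟩ := Filter.eventually_atTop.1 h3
  exact ⟨n0, hn0⟩

end Pool.Agent.Lib.MP_ff3ed7_lc.Adv
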