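import Pool.Agent.Lib.MP_ff3ed7_lc.Adv.Spec

/-! Module `Hyb`: hybrids. -/

set_option autoImplicit false

open Finset

namespace Pool.Agent.Lib.MP_ff3ed7_lc.Adv

open PP (Jx)

section

variable {Blk X Y : Type} [Fintype Blk] [DecidableEq Blk] [Fintype X] [Fintype Y]

private def Hyb_E (ω : Blk → X → Y → ℝ) (g : (Blk → X) → (Blk → Y) → ℝ) : ℝ :=
  ∑ a : Blk → X, ∑ b : Blk → Y, (∏ x, ω x (a x) (b x)) * g a b

private theorem Hyb_mass {J : Type} [Fintype J] [DecidableEq J] (ω : J → X → Y → ℝ)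
    (h : ∀ j, ∑ a, ∑ b, ω j a b = 1) :
    ∑ a : J → X, ∑ b : J → Y, ∏ j, ω j (a j) (b j) = 1 := by
  have h1 : ∀ a : J → X, ∑ b : J → Y, ∏ j, ω j (a j) (b j) = ∏ j, ∑ b, ω j (a j) b := by
    intro a
    rw [Finset.prod_univ_sum, Fintype.piFinset_univ]
  simp only [h1]
  have h2 : ∑ a : J → X, ∏ j, ∑ b, ω j (a j) b = ∏ j, ∑ a, ∑ b, ω j a b := by
    rw [Finset.prod_univ_sum, Fintype.piFinset_univ]
  rw [h2, Finset.prod_eq_one fun j _ => h j]

/-- The function with the value `a0` at `x0` and `a'` elsewhere. -/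
private def Hyb_up (x0 : Blk) (X : Type) (a' : {j // j ≠ x0} → X) (a0 : X) : Blk → X :=
  (Equiv.funSplitAt x0 X).symm (a0, a')

omit [Fintype Blk] [Fintype X] in
private theorem Hyb_up_self (x0 : Blk) (a' : {j // j ≠ x0} → X) (a0 : X) :
    Hyb_up x0 X a' a0 x0 = a0 := by
  simp [Hyb_up, Equiv.funSplitAt, Equiv.piSplitAt]

omit [Fintype Blk] [Fintype X] in
private theorem Hyb_up_ne (x0 : Blk) (a' : {j // j ≠ x0} → X) (a0 : X) (j : {j // j ≠ x0}) :
    Hyb_up x0 X a' a0 j = a' j := by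
  have h := j.2
  simp [Hyb_up, Equiv.funSplitAt, Equiv.piSplitAt, h]

private theorem Hyb_sum (x0 : Blk) (G : (Blk → X) → ℝ) :
    ∑ a, G a = ∑ a' : {j // j ≠ x0} → X, ∑ a0, G (Hyb_up x0 X a' a0) := by
  rw [← (Equiv.funSplitAt x0 X).symm.sum_comp, Fintype.sum_prod_type, Finset.sum_comm]
  rfl

omit [Fintype X] [Fintype Y] in
private theorem Hyb_prod (x0 : Blk) (ω : Blk → X → Y → ℝ) (a' : {j // j ≠ x0} → X) (a0 : X)
    (b' : {j // j ≠ x0} → Y) (b0 : Y) :
    ∏ x, ω x (Hyb_up x0 X a' a0 x) (Hyb_up x0 Y b' b0 x) =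
      (∏ j : {j // j ≠ x0}, ω j (a' j) (b' j)) * ω x0 a0 b0 := by
  rw [← Finset.mul_prod_erase univ _ (mem_univ x0), Hyb_up_self, Hyb_up_self,
    Finset.prod_subtype (univ.erase x0) (p := fun j => j ≠ x0)
      (fun x => by rw [mem_erase]; exact ⟨fun h => h.1, fun h => ⟨h, mem_univ _⟩⟩), mul_comm]
  congr 1
  refine Finset.prod_congr rfl fun j _ => ?_
  rw [Hyb_up_ne, Hyb_up_ne]

private theorem Hyb_split (x0 : Blk) (ω : Blk → X → Y → ℝ) (g : (Blk → X) → (Blk → Y) → ℝ) :
    Hyb_E ω g = ∑ a' : {j // j ≠ x0} → X, ∑ b' : {j // j ≠ x0} → Y,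
      (∏ j : {j // j ≠ x0}, ω j (a' j) (b' j)) *
        ∑ a0, ∑ b0, ω x0 a0 b0 * g (Hyb_up x0 X a' a0) (Hyb_up x0 Y b' b0) := by
  unfold Hyb_E
  rw [Hyb_sum x0]
  refine Finset.sum_congr rfl fun a' _ => ?_
  have h1 : ∀ a0 : X, ∑ b : Blk → Y, (∏ x, ω x (Hyb_up x0 X a' a0 x) (b x)) *
      g (Hyb_up x0 X a' a0) b = ∑ b' : {j // j ≠ x0} → Y, ∑ b0,
        (∏ j : {j // j ≠ x0}, ω j (a' j) (b' j)) * (ω x0 a0 b0 *
          g (Hyb_up x0 X a' a0) (Hyb_up x0 Y b' b0)) := by
    intro a0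
    rw [Hyb_sum x0]
    refine Finset.sum_congr rfl fun b' _ => Finset.sum_congr rfl fun b0 _ => ?_
    rw [Hyb_prod, mul_assoc]
  simp only [h1]
  rw [Finset.sum_comm]
  refine Finset.sum_congr rfl fun b' _ => ?_
  rw [Finset.mul_sum]
  refine Finset.sum_congr rfl fun a0 _ => ?_
  rw [Finset.mul_sum]

/-- Change of one block. -/
private theorem Hyb_one (x0 : Blk) (ω ω' : Blk → X → Y → ℝ) (g : (Blk → X) → (Blk → Y) → ℝ)
    (ε B : ℝ) (hnn : ∀ j a b, 0 ≤ ω j a b) (hs : ∀ j, ∑ a, ∑ b, ω j a b = 1)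
    (he : ∀ j, j ≠ x0 → ω j = ω' j) (hB : Bd (fun a b => ω x0 a b - ω' x0 a b) ε (fun _ _ => 1))
    (hg : Mul B g) : |Hyb_E ω g - Hyb_E ω' g| ≤ B * ε := by
  rw [Hyb_split x0, Hyb_split x0 ω']
  have h1 : ∀ (a' : {j // j ≠ x0} → X) (b' : {j // j ≠ x0} → Y),
      ∏ j : {j // j ≠ x0}, ω' j (a' j) (b' j) = ∏ j : {j // j ≠ x0}, ω j (a' j) (b' j) := by
    intro a' b'
    refine Finset.prod_congr rfl fun j _ => ?_
    rw [he j j.2]
  simp only [h1]
  rw [← Finset.sum_sub_distrib]
  simp only [← Finset.sum_sub_distrib, ← mul_sub]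
  have h2 : ∀ (a' : {j // j ≠ x0} → X) (b' : {j // j ≠ x0} → Y),
      |∑ a0, ∑ b0, (ω x0 a0 b0 * g (Hyb_up x0 X a' a0) (Hyb_up x0 Y b' b0) -
        ω' x0 a0 b0 * g (Hyb_up x0 X a' a0) (Hyb_up x0 Y b' b0))| ≤ B * ε := by
    intro a' b'
    have h3 := hg.2 X Y (Hyb_up x0 X a') (Hyb_up x0 Y b') _ _ _ hB (fun _ => 1) (fun _ => 1)
      (fun _ => by norm_num) (fun _ => by norm_num)
    refine le_of_eq_of_le ?_ h3
    congr 1
    refine Finset.sum_congr rfl fun a0 _ => Finset.sum_congr rfl fun b0 _ => ?_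
    ring
  have h4 : ∀ (a' : {j // j ≠ x0} → X) (b' : {j // j ≠ x0} → Y),
      0 ≤ ∏ j : {j // j ≠ x0}, ω j (a' j) (b' j) :=
    fun a' b' => Finset.prod_nonneg fun j _ => hnn _ _ _
  calc _ ≤ ∑ a' : {j // j ≠ x0} → X, ∑ b' : {j // j ≠ x0} → Y,
        (∏ j : {j // j ≠ x0}, ω j (a' j) (b' j)) * (B * ε) := by
        refine (Finset.abs_sum_le_sum_abs _ _).trans (Finset.sum_le_sum fun a' _ => ?_)
        refine (Finset.abs_sum_le_sum_abs _ _).trans (Finset.sum_le_sum fun b' _ => ?_)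
        rw [abs_mul, abs_of_nonneg (h4 a' b')]
        exact mul_le_mul_of_nonneg_left (h2 a' b') (h4 a' b')
    _ = B * ε := by
        simp only [← Finset.sum_mul]
        rw [Hyb_mass (fun j : {j // j ≠ x0} => ω j) (fun j => hs j), one_mul]

end

theorem tHyb : S_Hyb := by
  intro Blk X Y _ _ _ _ w1 w0 ε B g h1 h0 s1 s0 hB hg θ
  have hBε : 0 ≤ B * ε := mul_nonneg hg.1 hB.nonneg
  have key : ∀ s : Finset Blk,
      |Hyb_E (fun x => if x ∈ s ∧ θ x = true then w1 else w0) g - Hyb_E (fun _ => w0) g| ≤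
        s.card * (B * ε) := by
    intro s
    induction s using Finset.induction_on with
    | empty =>
      have h2 : (fun x => if x ∈ (∅ : Finset Blk) ∧ θ x = true then w1 else w0) =
          fun _ => w0 := by
        funext x
        rw [if_neg fun h => absurd h.1 (Finset.notMem_empty x)]
      rw [h2, sub_self, abs_zero, card_empty, Nat.cast_zero, zero_mul]
    | insert x0 s hx0 ih =>
      have h2 : |Hyb_E (fun x => if x ∈ insert x0 s ∧ θ x = true then w1 else w0) g -
          Hyb_E (fun x => if x ∈ s ∧ θ x = true then w1 else w0) g| ≤ B * ε := by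
        by_cases hθ : θ x0 = true
        · refine Hyb_one x0 _ _ g ε B ?_ ?_ ?_ ?_ hg
          · intro j a b
            by_cases h : j ∈ insert x0 s ∧ θ j = true
            · simp only [if_pos h]
              exact h1 a b
            · simp only [if_neg h]
              exact h0 a b
          · intro j
            by_cases h : j ∈ insert x0 s ∧ θ j = true
            · simp only [if_pos h]
              exact s1
            · simp only [if_neg h]
              exact s0
          · intro j hj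
            have h3 : (j ∈ insert x0 s ∧ θ j = true) ↔ (j ∈ s ∧ θ j = true) := by
              rw [mem_insert]
              constructor
              · rintro ⟨h4 | h4, h5⟩
                · exact absurd h4 hj
                · exact ⟨h4, h5⟩
              · rintro ⟨h4, h5⟩
                exact ⟨Or.inr h4, h5⟩
            simp only [h3]
          · simp only [if_pos (show x0 ∈ insert x0 s ∧ θ x0 = true from ⟨mem_insert_self _ _, hθ⟩),
              if_neg (show ¬ (x0 ∈ s ∧ θ x0 = true) from fun h => hx0 h.1)]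
            exact hB
        · have h3 : (fun x => if x ∈ insert x0 s ∧ θ x = true then w1 else w0) =
              fun x => if x ∈ s ∧ θ x = true then w1 else w0 := by
            funext x
            have h4 : (x ∈ insert x0 s ∧ θ x = true) ↔ (x ∈ s ∧ θ x = true) := by
              rw [mem_insert]
              constructor
              · rintro ⟨h4 | h4, h5⟩
                · rw [h4] at h5
                  exact absurd h5 hθ
                · exact ⟨h4, h5⟩
              · rintro ⟨h4, h5⟩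
                exact ⟨Or.inr h4, h5⟩
            simp only [h4]
          rw [h3, sub_self, abs_zero]
          exact hBε
      rw [card_insert_of_notMem hx0, Nat.cast_add, Nat.cast_one, add_mul, one_mul]
      have h5 := abs_sub_le (Hyb_E (fun x => if x ∈ insert x0 s ∧ θ x = true then w1 else w0) g)
        (Hyb_E (fun x => if x ∈ s ∧ θ x = true then w1 else w0) g) (Hyb_E (fun _ => w0) g)
      linarith
  have h6 := key univ
  have h7 : Ex w1 w0 θ g =
      Hyb_E (fun x => if x ∈ (univ : Finset Blk) ∧ θ x = true then w1 else w0) g := by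
    unfold Ex Hyb_E
    simp only [mem_univ, true_and]
  have h8 : Ex w1 w0 (fun _ => false) g = Hyb_E (fun _ => w0) g := by
    unfold Ex Hyb_E
    simp
  rw [h7, h8]
  exact h6

end Pool.Agent.Lib.MP_ff3ed7_lc.Adv
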