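import Pool.Agent.Lib.MP_ff3ed7_lc.Adv.Blk

/-! The theorem, from the statements of the specification (helper47). -/

set_option autoImplicit false

open Finset

namespace Pool.Agent.Lib.MP_ff3ed7_lc.Adv

open PP (Jx)

/-- The density argument, for a correctness predicate `Gd h x A` of the advice `h`, the input `x` and
the oracle `A`. -/
lemma dense_adv (hCore : S_Core) (hGrow : S_Grow) (hWt : S_Wt) {k : ℕ} {a : ℕ → ℕ}
    (ha : ∀ n, a n ≤ n ^ k + k) (c : ℕ) (Gd : List Bool → List Bool → (List Bool → Bool) → Prop)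
    (ht : ∀ (n T : ℕ) (inp : Fin T → List Bool) (A₀ : List Bool → Bool) (h : List Bool) (i : Fin T),
      (inp i).length = n → ∃ t : (Fin T → Jx (a n + n) → Bool × Bool) →
        (Fin T → Jx (a n + n) → Bool × Bool) → ℝ,
      Mul (2 ^ (4 * (n ^ c + c + 1) ^ 3)) t ∧
      (∀ x y, ∃ m : ℤ, m ≠ 0 ∧ |(m : ℝ)| ≤ 2 ^ (4 * (n ^ c + c + 1) ^ 3) ∧ t x y = m) ∧
      ∀ x y, Gd h (inp i) (orc (a n + n) inp A₀ x y) →
        (val a (orc (a n + n) inp A₀ x y) (inp i) = true → 0 < t x y) ∧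
        (val a (orc (a n + n) inp A₀ x y) (inp i) = false → t x y < 0))
    (A₀ : List Bool → Bool) (S₀ : Finset (List Bool)) :
    ∃ A : List Bool → Bool, (∀ s ∈ S₀, A s = A₀ s) ∧ ∃ x : List Bool,
      ¬ ∃ h : List Bool, h.length ≤ a x.length ∧
        ∀ x' : List Bool, x'.length = x.length → Gd h x' A := by
  classical
  obtain ⟨n0, hn0⟩ := hGrow k c (S₀.sup List.length) a ha
  obtain ⟨n, hn, hev⟩ : ∃ n, n0 ≤ n ∧ Even n := ⟨2 * n0, by omega, even_two_mul n0⟩
  obtain ⟨g1, g2, g3⟩ := hn0 n hn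
  set T := a n + 3 with hT
  have hle : Fintype.card (Fin T) ≤ Fintype.card (Fin n → Bool) := by
    rw [Fintype.card_fin, Fintype.card_fun, Fintype.card_bool, Fintype.card_fin]
    exact g2
  obtain ⟨emb⟩ := Function.Embedding.nonempty_of_card_le hle
  set inp : Fin T → List Bool := fun i => List.ofFn (emb i) with hinp
  have hl : ∀ i, (inp i).length = n := fun i => by simp [hinp]
  have hi : Function.Injective inp := fun i j h => emb.injective (List.ofFn_injective h)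
  set ℓ := a n + n with hℓ
  set D := 2 ^ ℓ / 9 with hD
  obtain ⟨w1, w0, k1, k2, k3, k4, k5, k6, k7⟩ := hWt ℓ D (by omega)
  by_contra hcon
  push Not at hcon
  have hval : ∀ (x y : Fin T → Jx ℓ → Bool × Bool) (i : Fin T),
      val a (orc ℓ inp A₀ x y) (inp i) = lift (fb ℓ) (x i) (y i) := by
    intro x y i
    have h1 : val a (orc ℓ inp A₀ x y) (inp i) =
        bval (a (inp i).length + (inp i).length) (orc ℓ inp A₀ x y) (inp i) := by
      refine if_pos ?_
      rw [hl]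
      exact hev
    rw [h1, hl]
    exact bval_orc hi hl A₀ x y i
  have htt : ∀ (s : Ads (a n)) (i : Fin T), ∃ t : (Fin T → Jx ℓ → Bool × Bool) →
        (Fin T → Jx ℓ → Bool × Bool) → ℝ,
      Mul (2 ^ (4 * (n ^ c + c + 1) ^ 3)) t ∧
      (∀ x y, ∃ m : ℤ, m ≠ 0 ∧ |(m : ℝ)| ≤ 2 ^ (4 * (n ^ c + c + 1) ^ 3) ∧ t x y = m) ∧
      ∀ x y, Gd (List.ofFn s.2) (inp i) (orc ℓ inp A₀ x y) →
        (val a (orc ℓ inp A₀ x y) (inp i) = true → 0 < t x y) ∧
        (val a (orc ℓ inp A₀ x y) (inp i) = false → t x y < 0) := fun s i =>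
    ht n T inp A₀ (List.ofFn s.2) i (hl i)
  choose t t1 t2 t3 using htt
  have hcor : ∀ x y : Fin T → Jx ℓ → Bool × Bool, ∃ s : Ads (a n), ∀ i,
      (lift (fb ℓ) (x i) (y i) = true → 0 < t s i x y) ∧
      (lift (fb ℓ) (x i) (y i) = false → t s i x y < 0) := by
    intro x y
    obtain ⟨h, hh1, hh2⟩ := hcon (orc ℓ inp A₀ x y) (orc_outside hl A₀ S₀ g1 x y)
      (List.replicate n false)
    rw [List.length_replicate] at hh1 hh2
    refine ⟨⟨⟨h.length, by omega⟩, h.get⟩, fun i => ?_⟩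
    have h3 := hh2 (inp i) (hl i)
    have h4 := t3 ⟨⟨h.length, by omega⟩, h.get⟩ i x y (by
      rw [List.ofFn_get]
      exact h3)
    rw [hval] at h4
    exact h4
  have hcard : 4 * Fintype.card (Ads (a n)) ≤ 2 ^ Fintype.card (Fin T) := by
    have h1 := card_Ads (a n)
    rw [Fintype.card_fin, hT]
    have h2 : 2 ^ (a n + 3) = 4 * 2 ^ (a n + 1) := by
      rw [pow_add, pow_add]
      ring
    omega
  have hfin := hCore (Fin T) (Jx ℓ → Bool × Bool) (Jx ℓ → Bool × Bool) (Ads (a n)) w1 w0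
    (√(2 / 2 ^ D)) (lift (fb ℓ)) t (4 * (n ^ c + c + 1) ^ 3) (4 * (n ^ c + c + 1) ^ 3)
    k1 k2 k3 k4 k5 k6 k7 t2 t1 hcor hcard
  rw [Fintype.card_fin] at hfin
  have hq : Fintype.card (Ads (a n)) ≤ 2 ^ (a n + 1) := by
    have h1 := card_Ads (a n)
    omega
  have hnum := numbers T (4 * (n ^ c + c + 1) ^ 3) (Fintype.card (Ads (a n))) D (a n) hT hq n hD g3
  linarith

lemma dense_PP (hCore : S_Core) (hGrow : S_Grow) (hWt : S_Wt) (hTp : S_Tp) {k : ℕ} {a : ℕ → ℕ}
    (ha : ∀ n, a n ≤ n ^ k + k) (W : AdvVerifier) (A₀ : List Bool → Bool)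
    (S₀ : Finset (List Bool)) :
    ∃ A : List Bool → Bool, (∀ s ∈ S₀, A s = A₀ s) ∧ ∃ x : List Bool, ¬ AdvPP a W x A := by
  refine dense_adv hCore hGrow hWt ha W.c (fun h x A => GoodPP a (W.fix h) x A) ?_ A₀ S₀
  intro n T inp A₀ h i hi
  obtain ⟨t, h1, h2, h3⟩ := exists_tPP hTp (orc_eq (ℓ := a n + n) (inp := inp) A₀)
    (shares_disj A₀) (W.fix h) n W.c rfl (inp i) hi
  refine ⟨t, h1, h2, fun x y hG => ⟨fun hv => ?_, fun hv => ?_⟩⟩
  · exact (h3 x y).1 (hG.1 hv)
  · exact (h3 x y).2 (hG.2 hv)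

lemma dense_MA (hCore : S_Core) (hGrow : S_Grow) (hWt : S_Wt) (hTm : S_Tm) {k : ℕ} {a : ℕ → ℕ}
    (ha : ∀ n, a n ≤ n ^ k + k) (W : AdvVerifier) (A₀ : List Bool → Bool)
    (S₀ : Finset (List Bool)) :
    ∃ A : List Bool → Bool, (∀ s ∈ S₀, A s = A₀ s) ∧ ∃ x : List Bool, ¬ AdvMA a W x A := by
  refine dense_adv hCore hGrow hWt ha W.c (fun h x A => GoodMA a (W.fix h) x A) ?_ A₀ S₀
  intro n T inp A₀ h i hi
  obtain ⟨t, h1, h2, h3⟩ := exists_tMA hTm (orc_eq (ℓ := a n + n) (inp := inp) A₀)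
    (shares_disj A₀) (W.fix h) n W.c rfl (inp i) hi
  refine ⟨t, h1, h2, fun x y hG => ⟨fun hv => ?_, fun hv => ?_⟩⟩
  · exact (h3 x y).1 (hG.1 hv)
  · exact (h3 x y).2 (hG.2 hv)

lemma dense_S2 (a : ℕ → ℕ) (W : Verifier) (A₀ : List Bool → Bool) (S₀ : Finset (List Bool)) :
    ∃ A : List Bool → Bool, (∀ s ∈ S₀, A s = A₀ s) ∧ ∃ x, ¬ GoodS2 a W x A := by
  classical
  obtain ⟨x, ⟨h1, h2⟩, hx⟩ :=
    Gen.exists_input (Gen.eventually_large W.c (S₀.sup List.length)) false
  have hval : ∀ A, val a A x = Sig.fσ x.length fun c => A (Gen.name x.length c) := fun A =>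
    if_neg fun h => by simpa using hx.mp h
  by_contra hcon
  push Not at hcon
  have key : ∀ z : Sig.Cs x.length → Bool, GoodS2 a W x (glue (Gen.name x.length) A₀ z) := by
    intro z
    refine hcon _ ?_ x
    intro s hs
    unfold glue
    rw [dif_neg]
    rintro ⟨c, hc⟩
    have h3 : s.length ≤ S₀.sup List.length := le_sup (f := List.length) hs
    rw [← hc, Gen.length_name] at h3
    omega
  have hpart : ∀ z : Sig.Cs x.length → Bool,
      (fun c => glue (Gen.name x.length) A₀ z (Gen.name x.length c)) = z := fun z =>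
    funext fun c => glue_apply (Gen.name_inj _) A₀ z c
  have hS2 : HasSigma2 (Sig.fσ x.length) (W.msg x.length) (x.length ^ W.c + W.c) := by
    refine ⟨W.coins x.length, fun y ρ => (W.tree x y ρ).restr (Gen.name x.length) A₀,
      fun y ρ => DTree.depthLE_restr _ _ (W.depth_le x y ρ), fun z => ?_⟩
    have := key z
    unfold GoodS2 at this
    rw [hval, hpart] at this
    simp only [DTree.eval_restr]
    exact this
  have h3 := Sig.lower_fσ hS2
  have h4 := W.msg_le x.length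
  set N := x.length ^ W.c + W.c with hN
  have h5 : 9 * (2 * (N + 2) * (N * (2 * N) + 2)) = 36 * (N * N * N) + 72 * (N * N) + 36 * N + 72 := by
    ring
  rw [h5] at h2
  omega

theorem generic_adv (hCore : S_Core) (hGrow : S_Grow) (hWt : S_Wt) (hTp : S_Tp) (hTm : S_Tm)
    (k : ℕ) (a : ℕ → ℕ) (ha : ∀ n, a n ≤ n ^ k + k) : ∃ V : Verifier,
    (∀ n, V.coins n ≤ a n + 4 * n + 14) ∧
    (∀ x y ρ, (V.tree x y ρ).DepthLE 30) ∧
    (∀ A x, 2 / 3 ≤ V.amProb A x ∨ V.amProb A x ≤ 1 / 3) ∧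
    ∀ (W : ℕ → AdvVerifier) (W' : ℕ → Verifier), ∀ᶠ A in residual (List Bool → Bool),
      ∀ i, (∀ h : ℕ → List Bool, (∀ n, (h n).length ≤ a n) →
          ¬ (W i).AcceptsMA h A {x | 2 / 3 ≤ V.amProb A x} ∧
          ¬ (W i).AcceptsPP h A {x | 2 / 3 ≤ V.amProb A x}) ∧
        ¬ (W' i).AcceptsSigma2 A {x | 2 / 3 ≤ V.amProb A x} := by
  refine ⟨robustV k a ha, fun n => ?_, fun x y ρ => (exists_trees a x).choose_spec.1 y ρ,
    fun A x => ?_, fun W W' => ?_⟩
  · change coins a n ≤ a n + 4 * n + 14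
    unfold coins
    split_ifs <;> omega
  · rcases h : val a A x with _ | _
    · exact Or.inr (amProb_no ha A x h)
    · exact Or.inl (amProb_yes ha A x h)
  · rw [eventually_countable_forall]
    intro i
    have hno : ∀ (A : List Bool → Bool) (x : List Bool),
        val a A x = false → x ∉ {x | 2 / 3 ≤ (robustV k a ha).amProb A x} := by
      intro A x h h'
      have h1 := amProb_no ha A x h
      have h2 : (2 / 3 : ℝ) ≤ (robustV k a ha).amProb A x := h'
      linarith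
    have hM := PP.eventually_of (P := AdvMA a (W i)) (fun x => by
      obtain ⟨S, hS⟩ := adv_congr a (W i) x
      exact ⟨S, fun A B h => (hS A B h).1⟩) (dense_MA hCore hGrow hWt hTm ha (W i))
    have hP := PP.eventually_of (P := AdvPP a (W i)) (fun x => by
      obtain ⟨S, hS⟩ := adv_congr a (W i) x
      exact ⟨S, fun A B h => (hS A B h).2⟩) (dense_PP hCore hGrow hWt hTp ha (W i))
    have hS := PP.eventually_of (P := GoodS2 a (W' i)) (s2_congr a (W' i)) (dense_S2 a (W' i))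
    filter_upwards [hM, hP, hS] with A h1 h2 h3
    refine ⟨fun h hh => ⟨?_, ?_⟩, ?_⟩
    · intro hacc
      obtain ⟨x, hx⟩ := h1
      refine hx ⟨h x.length, hh _, fun x' hx' => ?_⟩
      have h4 := hacc x'
      rw [← hx']
      exact ⟨fun h => h4.1 (amProb_yes ha A x' h), fun h => h4.2 (hno A x' h)⟩
    · intro hacc
      obtain ⟨x, hx⟩ := h2
      refine hx ⟨h x.length, hh _, fun x' hx' => ?_⟩
      have h4 := hacc x'
      rw [← hx']
      exact ⟨fun h => h4.1 (amProb_yes ha A x' h), fun h => h4.2 (hno A x' h)⟩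
    · intro hacc
      obtain ⟨x, hx⟩ := h3
      apply hx
      unfold GoodS2
      rw [← hacc x]
      constructor
      · exact fun h => amProb_yes ha A x h
      · intro h
        by_contra h'
        exact hno A x (by simpa using h') h

end Pool.Agent.Lib.MP_ff3ed7_lc.Adv
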