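import Pool.Agent.Lib.MP_ff3ed7_lc.Adv.Spec

set_option autoImplicit false

open Finset

namespace Pool.Agent.Lib.MP_ff3ed7_lc.Adv

/-- Change of the inputs. -/
private def cmap {X Y X' Y' : Type} (u : X' → X) (v : Y' → Y) : Prot X Y → Prot X' Y'
  | .leaf b => .leaf b
  | .alice a next => .alice (fun x => a (u x)) fun s => cmap u v (next s)
  | .bob b next => .bob (fun y => b (v y)) fun s => cmap u v (next s)

private theorem eval_cmap {X Y X' Y' : Type} (u : X' → X) (v : Y' → Y) (P : Prot X Y) (x : X')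
    (y : Y') : (cmap u v P).eval x y = P.eval (u x) (v y) := by
  induction P with
  | leaf b => rfl
  | alice a next ih => exact ih _
  | bob b next ih => exact ih _

private theorem cost_cmap {X Y X' Y' : Type} (u : X' → X) (v : Y' → Y) (P : Prot X Y) :
    ∀ c : ℕ, P.CostLE c → (cmap u v P).CostLE c := by
  induction P with
  | leaf b => exact fun _ _ => trivial
  | alice a next ih => exact fun c h => ⟨h.1, fun s => ih s _ (h.2 s)⟩
  | bob b next ih => exact fun c h => ⟨h.1, fun s => ih s _ (h.2 s)⟩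

theorem tMc : S_Mc := by
  refine ⟨?_, ?_, ?_, ?_, ?_, ?_⟩
  · intro X Y c
    refine ⟨abs_nonneg c, fun X' Y' _ _ u v w h T H a b ha hb => ?_⟩
    have h1 : ∑ x, ∑ y, w x y * (h x y * c) * a x * b y =
        c * ∑ x, ∑ y, w x y * h x y * a x * b y := by
      rw [Finset.mul_sum]
      refine Finset.sum_congr rfl fun x _ => ?_
      rw [Finset.mul_sum]
      refine Finset.sum_congr rfl fun y _ => ?_
      ring
    show |∑ x, ∑ y, w x y * (h x y * c) * a x * b y| ≤ |c| * T
    rw [h1, abs_mul]
    exact mul_le_mul_of_nonneg_left (H a b ha hb) (abs_nonneg c)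
  · intro X Y B B' g g' hg hg'
    refine ⟨add_nonneg hg.1 hg'.1, fun X' Y' _ _ u v w h T H a b ha hb => ?_⟩
    have h1 := hg.2 X' Y' u v w h T H a b ha hb
    have h2 := hg'.2 X' Y' u v w h T H a b ha hb
    have h3 : ∑ x, ∑ y, w x y * (h x y * (g (u x) (v y) + g' (u x) (v y))) * a x * b y =
        ∑ x, ∑ y, w x y * (h x y * g (u x) (v y)) * a x * b y +
        ∑ x, ∑ y, w x y * (h x y * g' (u x) (v y)) * a x * b y := by
      rw [← Finset.sum_add_distrib]
      refine Finset.sum_congr rfl fun x _ => ?_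
      rw [← Finset.sum_add_distrib]
      refine Finset.sum_congr rfl fun y _ => ?_
      ring
    show |∑ x, ∑ y, w x y * (h x y * (g (u x) (v y) + g' (u x) (v y))) * a x * b y| ≤ (B + B') * T
    rw [h3, add_mul]
    exact (abs_add_le _ _).trans (add_le_add h1 h2)
  · intro X Y B B' g g' hg hg'
    refine ⟨mul_nonneg hg.1 hg'.1, fun X' Y' _ _ u v w h T H => ?_⟩
    have h1 := hg.2 X' Y' u v w h T H
    have h2 := hg'.2 X' Y' u v w _ _ h1
    have e1 : B * B' * T = B' * (B * T) := by ring
    have e2 : (fun x y => h x y * (g (u x) (v y) * g' (u x) (v y))) =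
        fun x y => h x y * g (u x) (v y) * g' (u x) (v y) := by
      funext x y
      ring
    rw [e1]
    show Bd w (B' * (B * T)) (fun x y => h x y * (g (u x) (v y) * g' (u x) (v y)))
    rw [e2]
    exact h2
  · intro X Y P c hc
    refine ⟨by positivity, fun X' Y' _ _ u v w h T H => ?_⟩
    have h1 := H.prot (cmap u v P) c (cost_cmap u v P c hc)
    simp only [eval_cmap] at h1
    exact h1
  · intro X Y B B' g hg hB
    refine ⟨hg.1.trans hB, fun X' Y' _ _ u v w h T H a b ha hb => ?_⟩
    exact (hg.2 X' Y' u v w h T H a b ha hb).trans (mul_le_mul_of_nonneg_right hB H.nonneg)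
  · intro X Y X' Y' B g u v hg
    exact ⟨hg.1, fun X'' Y'' _ _ u' v' w h T H =>
      hg.2 X'' Y'' (fun x => u (u' x)) (fun y => v (v' y)) w h T H⟩

end Pool.Agent.Lib.MP_ff3ed7_lc.Adv
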