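import Pool.Agent.Lib.MP_ff3ed7_lc.Adv.Spec

set_option autoImplicit false

open Finset

namespace Pool.Agent.Lib.MP_ff3ed7_lc.Adv

theorem tMd : S_Mc → S_Md := by
  rintro ⟨hconst, hadd, hmul, -, hmono, -⟩
  have hsum : ∀ (X Y I : Type) [DecidableEq I] (s : Finset I) (B : I → ℝ) (g : I → X → Y → ℝ),
      (∀ i ∈ s, Mul (B i) (g i)) → Mul (∑ i ∈ s, B i) (fun x y => ∑ i ∈ s, g i x y) := by
    intro X Y I _ s B g
    induction s using Finset.induction_on with
    | empty =>
      intro _
      have h := hconst X Y 0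
      simpa using h
    | insert a s ha ih =>
      intro h
      simp only [Finset.sum_insert ha]
      exact hadd X Y _ _ _ _ (h a (Finset.mem_insert_self _ _))
        (ih fun i hi => h i (Finset.mem_insert_of_mem hi))
  have hprod : ∀ (X Y I : Type) [DecidableEq I] (s : Finset I) (B : I → ℝ) (g : I → X → Y → ℝ),
      (∀ i ∈ s, Mul (B i) (g i)) → Mul (∏ i ∈ s, B i) (fun x y => ∏ i ∈ s, g i x y) := by
    intro X Y I _ s B g
    induction s using Finset.induction_on with
    | empty =>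
      intro _
      have h := hconst X Y 1
      simpa using h
    | insert a s ha ih =>
      intro h
      simp only [Finset.prod_insert ha]
      exact hmul X Y _ _ _ _ (h a (Finset.mem_insert_self _ _))
        (ih fun i hi => h i (Finset.mem_insert_of_mem hi))
  have hpow : ∀ (X Y : Type) (B : ℝ) (g : X → Y → ℝ) (k : ℕ), Mul B g →
      Mul (B ^ k) (fun x y => g x y ^ k) := by
    intro X Y B g k hg
    have h := hprod X Y ℕ (Finset.range k) (fun _ => B) (fun _ => g) (fun _ _ => hg)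
    simpa using h
  have hhh : ∀ (X Y : Type) (b r : ℕ) (t : X → Y → ℝ), Mul (2 ^ b) t →
      Mul (2 ^ (2 * (r + 1) * (b + r + 1))) (fun x y => hh r (t x y)) := by
    intro X Y b r t ht
    have h1 : ∀ i ∈ Finset.range (r + 1), Mul ((2 : ℝ) ^ (2 * (b + r + 1)))
        (fun x y => (t x y + 2 ^ i) ^ 2) := by
      intro i hi
      have hi' : i ≤ r := by
        have := Finset.mem_range.1 hi
        omega
      have h2 := hadd X Y _ _ _ _ ht (hconst X Y (2 ^ i))
      have h3 : (2 : ℝ) ^ b + |(2 : ℝ) ^ i| ≤ 2 ^ (b + r + 1) := by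
        rw [abs_of_nonneg (by positivity), pow_succ]
        have e1 : (2 : ℝ) ^ b ≤ 2 ^ (b + r) := pow_le_pow_right₀ (by norm_num) (by omega)
        have e2 : (2 : ℝ) ^ i ≤ 2 ^ (b + r) := pow_le_pow_right₀ (by norm_num) (by omega)
        linarith
      have h4 := hpow X Y _ _ 2 (hmono X Y _ _ _ h2 h3)
      have e : ((2 : ℝ) ^ (b + r + 1)) ^ 2 = 2 ^ (2 * (b + r + 1)) := by
        rw [← pow_mul, mul_comm]
      rw [e] at h4
      exact h4
    have h5 := hprod X Y ℕ (Finset.range (r + 1)) (fun _ => (2 : ℝ) ^ (2 * (b + r + 1)))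
      (fun i x y => (t x y + 2 ^ i) ^ 2) h1
    rw [Finset.prod_const, Finset.card_range, ← pow_mul] at h5
    have e : 2 * (b + r + 1) * (r + 1) = 2 * (r + 1) * (b + r + 1) := by ring
    rw [e] at h5
    exact h5
  refine ⟨hsum, hprod, hpow, fun X Y b r t ht => ⟨hhh X Y b r t ht, ?_⟩⟩
  have h1 := hmul X Y _ _ _ _ (hconst X Y (-1)) ht
  have h2 : |(-1 : ℝ)| * 2 ^ b = 2 ^ b := by
    rw [abs_neg, abs_one, one_mul]
  rw [h2] at h1
  have h3 := hhh X Y b r _ h1
  simp only [neg_one_mul] at h3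
  exact h3

end Pool.Agent.Lib.MP_ff3ed7_lc.Adv
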