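import Pool.Agent.Lib.MP_ff3ed7_lc.Adv.Spec
import Pool.Agent.Lib.MP_ff3ed7_lc.Adv.Defs

/-! The robust verifier with an independent function for every input (helper47). -/

set_option autoImplicit false

open Finset

namespace Pool.Agent.Lib.MP_ff3ed7_lc.Adv

open PP (Jx)

/-- The names of the input bits for the input `x` of length `n`, with parameter `ℓ`. -/
noncomputable def bn (ℓ : ℕ) (x : List Bool) (c : Jx ℓ × Fin 4) : List Bool := x ++ Alg.code ℓ c

lemma length_bn (ℓ : ℕ) (x : List Bool) (c : Jx ℓ × Fin 4) :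
    (bn ℓ x c).length = x.length + (5 * ℓ + 19) := by
  unfold bn
  rw [List.length_append, Alg.length_code]

/-- The value of the block of `x`. -/
noncomputable def bval (ℓ : ℕ) (A : List Bool → Bool) (x : List Bool) : Bool :=
  lift (fb ℓ) (fstPart (bn ℓ x) A) (sndPart (bn ℓ x) A)

/-- The value on the input `x`. -/
noncomputable def val (a : ℕ → ℕ) (A : List Bool → Bool) (x : List Bool) : Bool :=
  if Even x.length then bval (a x.length + x.length) A x
  else Sig.fσ x.length fun c => A (Gen.name x.length c)

/-- length of the message -/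
def msg (a : ℕ → ℕ) (n : ℕ) : ℕ := if Even n then 5 * (a n + n) + 17 else 9 * n + 30

/-- number of coins -/
def coins (a : ℕ → ℕ) (n : ℕ) : ℕ := if Even n then a n + n + 2 else 4 * n + 14

/-- A bound for all the lengths. -/
def big (a : ℕ → ℕ) (n : ℕ) : ℕ := 5 * a n + 15 * n + 30

lemma exists_trees (a : ℕ → ℕ) (x : List Bool) :
    ∃ T : (Fin (msg a x.length) → Bool) → (Fin (coins a x.length) → Bool) →
    DTree (List Bool) Bool, (∀ y ρ, (T y ρ).DepthLE 30) ∧
      (∀ y ρ, (T y ρ).AllQ fun s => s.length ≤ big a x.length) ∧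
      (∀ A, val a A x = true → 2 / 3 ≤ prob (coins a x.length) fun ρ =>
        ∃ y, (T y ρ).eval A = true) ∧
      ∀ A, val a A x = false → prob (coins a x.length) (fun ρ =>
        ∃ y, (T y ρ).eval A = true) ≤ 1 / 3 := by
  by_cases hℓ : Even x.length
  · have hm : msg a x.length = 5 * (a x.length + x.length) + 17 := if_pos hℓ
    have hc : coins a x.length = (a x.length + x.length) + 2 := if_pos hℓ
    have hv : ∀ A, val a A x = bval (a x.length + x.length) A x := fun A => if_pos hℓ
    rw [hm, hc]
    simp only [hv]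
    obtain ⟨T, hT, hyes, hno⟩ := hasAM_fb (a x.length + x.length)
    refine ⟨fun y ρ => expandTree (bn (a x.length + x.length) x) (T y ρ),
      fun y ρ => depthLE_expandTree (hT y ρ),
      fun y ρ => allQ_expandTree (fun i => ?_) _, fun A hA => ?_, fun A hA => ?_⟩
    · rw [length_bn]
      unfold big
      omega
    · simp only [eval_expandTree]
      exact hyes _ hA
    · simp only [eval_expandTree]
      exact hno _ hA
  · have hm : msg a x.length = 9 * x.length + 30 := if_neg hℓ
    have hc : coins a x.length = 4 * x.length + 14 := if_neg hℓ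
    have hv : ∀ A, val a A x = Sig.fσ x.length fun c => A (Gen.name x.length c) :=
      fun A => if_neg hℓ
    rw [hm, hc]
    simp only [hv]
    obtain ⟨T, hT, hyes, hno⟩ := Sig.hasAM_fσ x.length
    refine ⟨fun y ρ => (T y ρ).conv (Gen.name x.length) fun _ s => s,
      fun y ρ => (DTree.depthLE_conv (hT y ρ)).mono (by norm_num),
      fun y ρ => allQ_conv (fun i => ?_) _, fun A hA => ?_, fun A hA => ?_⟩
    · rw [Gen.length_name]
      unfold big
      omega
    · simp only [DTree.eval_conv]
      exact hyes _ hA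
    · simp only [DTree.eval_conv]
      exact hno _ hA

lemma big_le (k : ℕ) (a : ℕ → ℕ) (ha : ∀ n, a n ≤ n ^ k + k) (n : ℕ) :
    big a n ≤ n ^ (100 * (k + 3) + k) + (100 * (k + 3) + k) := by
  have h0 := ha n
  unfold big
  rcases Nat.lt_or_ge n 2 with h | h
  · have h1 : n ^ k ≤ 1 := by
      interval_cases n
      · rcases Nat.eq_zero_or_pos k with hk | hk
        · subst hk; simp
        · rw [zero_pow (by omega)]
          omega
      · simp
    omega
  · have h1 : n ≤ n ^ (k + 1) := Nat.le_self_pow (by omega) n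
    have h2 : n ^ k ≤ n ^ (k + 1) := Nat.pow_le_pow_right (by omega) (by omega)
    have h3 : 100 * (k + 3) ≤ n ^ (100 * (k + 3) - 1) := by
      have h4 : 100 * (k + 3) - 1 < 2 ^ (100 * (k + 3) - 1) := Nat.lt_two_pow_self
      have h5 : 2 ^ (100 * (k + 3) - 1) ≤ n ^ (100 * (k + 3) - 1) := Nat.pow_le_pow_left h _
      omega
    have h6 : n ^ (100 * (k + 3) + k) = n ^ (k + 1) * n ^ (100 * (k + 3) - 1) := by
      rw [← pow_add]
      congr 1
      omega
    have h7 : n ^ (k + 1) * (100 * (k + 3)) ≤ n ^ (k + 1) * n ^ (100 * (k + 3) - 1) :=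
      Nat.mul_le_mul_left _ h3
    have h8 : n ^ (k + 1) * (100 * (k + 3)) = 100 * k * n ^ (k + 1) + 300 * n ^ (k + 1) := by ring
    have h9 : k ≤ k * n ^ (k + 1) := Nat.le_mul_of_pos_right _ (Nat.pow_pos (by omega))
    have h10 : 100 * k * n ^ (k + 1) = 100 * (k * n ^ (k + 1)) := by ring
    rw [h6]
    omega

/-- The robust verifier. -/
noncomputable def robustV (k : ℕ) (a : ℕ → ℕ) (ha : ∀ n, a n ≤ n ^ k + k) : Verifier where
  msg := msg a
  coins := coins a
  tree x := (exists_trees a x).choose
  c := 100 * (k + 3) + k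
  msg_le n := by
    refine le_trans ?_ (big_le k a ha n)
    unfold msg big
    split_ifs <;> omega
  coins_le n := by
    refine le_trans ?_ (big_le k a ha n)
    unfold coins big
    split_ifs <;> omega
  depth_le x y ρ := ((exists_trees a x).choose_spec.1 y ρ).mono
    (le_trans (by unfold big; omega) (big_le k a ha x.length))
  length_le x y ρ := ((exists_trees a x).choose_spec.2.1 y ρ).mono fun s hs =>
    hs.trans (big_le k a ha x.length)

lemma amProb_yes {k : ℕ} {a : ℕ → ℕ} (ha : ∀ n, a n ≤ n ^ k + k) (A : List Bool → Bool)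
    (x : List Bool) (h : val a A x = true) : 2 / 3 ≤ (robustV k a ha).amProb A x :=
  (exists_trees a x).choose_spec.2.2.1 A h

lemma amProb_no {k : ℕ} {a : ℕ → ℕ} (ha : ∀ n, a n ≤ n ^ k + k) (A : List Bool → Bool)
    (x : List Bool) (h : val a A x = false) : (robustV k a ha).amProb A x ≤ 1 / 3 :=
  (exists_trees a x).choose_spec.2.2.2 A h

/-! ### Correctness on one input -/

/-- `W` works correctly on `x` relative to `A`, as a Merlin-Arthur protocol. -/
def GoodMA (a : ℕ → ℕ) (W : AlgVerifier) (x : List Bool) (A : List Bool → Bool) : Prop :=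
  (val a A x = true → ∃ y, 2 / 3 ≤ W.maProb A x y) ∧
  (val a A x = false → ∀ y, W.maProb A x y ≤ 1 / 3)

/-- `W` works correctly on `x` relative to `A`, as a `PP` machine. -/
def GoodPP (a : ℕ → ℕ) (W : AlgVerifier) (x : List Bool) (A : List Bool → Bool) : Prop :=
  (val a A x = true → 1 / 2 < W.ppProb A x) ∧
  (val a A x = false → W.ppProb A x ≤ 1 / 2)

/-- `W` works correctly on `x` relative to `A`, as a `Σ₂` machine. -/
def GoodS2 (a : ℕ → ℕ) (W : Verifier) (x : List Bool) (A : List Bool → Bool) : Prop :=
  val a A x = true ↔ ∃ y, ∀ ρ, (W.tree x y ρ).eval A = true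

/-- some advice string is good for all inputs of the length of `x` -/
def AdvMA (a : ℕ → ℕ) (W : AdvVerifier) (x : List Bool) (A : List Bool → Bool) : Prop :=
  ∃ h : List Bool, h.length ≤ a x.length ∧
    ∀ x' : List Bool, x'.length = x.length → GoodMA a (W.fix h) x' A

/-- some advice string is good for all inputs of the length of `x` -/
def AdvPP (a : ℕ → ℕ) (W : AdvVerifier) (x : List Bool) (A : List Bool → Bool) : Prop :=
  ∃ h : List Bool, h.length ≤ a x.length ∧
    ∀ x' : List Bool, x'.length = x.length → GoodPP a (W.fix h) x' A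

lemma val_congr (a : ℕ → ℕ) (x : List Bool) {A B : List Bool → Bool}
    (h : ∀ s : List Bool, s.length ≤ big a x.length → A s = B s) : val a A x = val a B x := by
  unfold val
  split_ifs
  · have h1 : ∀ c, A (bn (a x.length + x.length) x c) = B (bn (a x.length + x.length) x c) := by
      intro c
      refine h _ ?_
      rw [length_bn]
      unfold big
      omega
    unfold bval
    congr 1
    · funext i
      simp only [fstPart, h1]
    · funext i
      simp only [sndPart, h1]
  · congr 1
    funext c
    refine h _ ?_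
    rw [Gen.length_name]
    unfold big
    omega

lemma good_congr (a : ℕ → ℕ) (W : AlgVerifier) (x : List Bool) {A B : List Bool → Bool}
    (h : ∀ s : List Bool, s.length ≤ big a x.length + (x.length ^ W.c + W.c) → A s = B s) :
    (GoodMA a W x A ↔ GoodMA a W x B) ∧ (GoodPP a W x A ↔ GoodPP a W x B) := by
  have h1 : val a A x = val a B x := val_congr a x fun s hs => h s (by omega)
  have h3 : ∀ s : List Bool, s.length ≤ x.length ^ W.c + W.c → A s = B s := fun s hs =>
    h s (by omega)
  have h0 : ∀ y ρ, (W.tree x y ρ).eval (AQ.ans A) = (W.tree x y ρ).eval (AQ.ans B) := fun y ρ =>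
    DTree.eval_congr_of_allQ (fun q hq => AQ.ans_congr h3 q hq.2) _ (W.query_le x y ρ)
  have h2 : ∀ y, W.maProb A x y = W.maProb B x y := by
    intro y
    unfold AlgVerifier.maProb
    simp only [h0]
  have h4 : W.ppProb A x = W.ppProb B x := by
    unfold AlgVerifier.ppProb
    simp only [h0]
  unfold GoodMA GoodPP
  rw [h1, h4]
  simp only [h2]
  exact ⟨trivial, trivial⟩

lemma adv_congr (a : ℕ → ℕ) (W : AdvVerifier) (x : List Bool) : ∃ S : Finset (List Bool),
    ∀ A B : List Bool → Bool, (∀ s ∈ S, A s = B s) →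
      (AdvMA a W x A ↔ AdvMA a W x B) ∧ (AdvPP a W x A ↔ AdvPP a W x B) := by
  classical
  refine ⟨(List.finite_length_le Bool (big a x.length + (x.length ^ W.c + W.c))).toFinset, ?_⟩
  intro A B hAB
  have h : ∀ s : List Bool, s.length ≤ big a x.length + (x.length ^ W.c + W.c) → A s = B s :=
    fun s hs => hAB s (by simpa using hs)
  have key : ∀ (h' x' : List Bool), x'.length = x.length →
      (GoodMA a (W.fix h') x' A ↔ GoodMA a (W.fix h') x' B) ∧
        (GoodPP a (W.fix h') x' A ↔ GoodPP a (W.fix h') x' B) := by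
    intro h' x' hx'
    refine good_congr a (W.fix h') x' fun s hs => h s ?_
    rw [hx'] at hs
    exact hs
  constructor
  · unfold AdvMA
    refine exists_congr fun h' => and_congr_right fun _ => forall_congr' fun x' =>
      forall_congr' fun hx' => (key h' x' hx').1
  · unfold AdvPP
    refine exists_congr fun h' => and_congr_right fun _ => forall_congr' fun x' =>
      forall_congr' fun hx' => (key h' x' hx').2

lemma s2_congr (a : ℕ → ℕ) (W : Verifier) (x : List Bool) : ∃ S : Finset (List Bool),
    ∀ A B : List Bool → Bool, (∀ s ∈ S, A s = B s) → (GoodS2 a W x A ↔ GoodS2 a W x B) := by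
  classical
  refine ⟨(List.finite_length_le Bool (big a x.length + (x.length ^ W.c + W.c))).toFinset, ?_⟩
  intro A B hAB
  have h : ∀ s : List Bool, s.length ≤ big a x.length + (x.length ^ W.c + W.c) → A s = B s :=
    fun s hs => hAB s (by simpa using hs)
  have h1 : val a A x = val a B x := val_congr a x fun s hs => h s (by omega)
  have h0 : ∀ y ρ, (W.tree x y ρ).eval A = (W.tree x y ρ).eval B := fun y ρ =>
    DTree.eval_congr_of_allQ (fun s hs => h s (by omega)) _ (W.length_le x y ρ)
  unfold GoodS2
  rw [h1]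
  simp only [h0]

end Pool.Agent.Lib.MP_ff3ed7_lc.Adv
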