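import Pool.Agent.Lib.MP_ff3ed7_lc.Adv.Spec

set_option autoImplicit false

open Finset

namespace Pool.Agent.Lib.MP_ff3ed7_lc.Adv

private lemma hh_nonneg (r : ℕ) (t : ℝ) : 0 ≤ hh r t :=
  prod_nonneg fun _ _ => sq_nonneg _

private lemma two_pow_ex (r : ℕ) (t : ℝ) (h1 : 1 ≤ t) (h2 : t ≤ 2 ^ r) :
    ∃ j, j ≤ r ∧ (2 : ℝ) ^ j ≤ t ∧ t ≤ 2 ^ (j + 1) := by
  obtain ⟨j, hj1, hj2⟩ := exists_nat_pow_near h1 (by norm_num : (1 : ℝ) < 2)
  refine ⟨j, ?_, hj1, hj2.le⟩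
  by_contra hc
  push Not at hc
  have : (2 : ℝ) ^ r < 2 ^ j := pow_lt_pow_right₀ (by norm_num) hc
  linarith

private lemma hh_sgn (r : ℕ) (t : ℝ) (h1 : 1 ≤ t) (h2 : t ≤ 2 ^ r) :
    9 * hh r (-t) ≤ hh r t := by
  obtain ⟨j, hj, hj1, hj2⟩ := two_pow_ex r t h1 h2
  unfold hh
  have hm : j ∈ range (r + 1) := mem_range.2 (by omega)
  rw [← mul_prod_erase (range (r + 1)) (fun i => (-t + 2 ^ i) ^ 2) hm,
    ← mul_prod_erase (range (r + 1)) (fun i => (t + 2 ^ i) ^ 2) hm, ← mul_assoc]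
  refine mul_le_mul ?_ (prod_le_prod (fun i _ => sq_nonneg _) fun i _ => ?_)
    (prod_nonneg fun i _ => sq_nonneg _) (sq_nonneg _)
  · have h3 : (0 : ℝ) < 2 ^ j := by positivity
    rw [pow_succ] at hj2
    show 9 * (-t + 2 ^ j) ^ 2 ≤ (t + 2 ^ j) ^ 2
    nlinarith [mul_nonneg (by linarith : (0 : ℝ) ≤ 4 * 2 ^ j - 2 * t)
      (by linarith : (0 : ℝ) ≤ 4 * t - 2 * 2 ^ j)]
  · have h3 : (0 : ℝ) < 2 ^ i := by positivity
    have h4 : (0 : ℝ) < t * 2 ^ i := mul_pos (by linarith) h3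
    nlinarith

private lemma hh_int (r : ℕ) (m : ℝ) (hm : 1 ≤ m) : 1 ≤ hh r m := by
  unfold hh
  calc (1 : ℝ) = ∏ i ∈ range (r + 1), (1 : ℝ) := by simp
    _ ≤ ∏ i ∈ range (r + 1), (m + 2 ^ i) ^ 2 := by
      refine prod_le_prod (fun i _ => by norm_num) fun i _ => ?_
      have h3 : (0 : ℝ) < 2 ^ i := by positivity
      nlinarith

theorem tSgn : S_Sgn := by
  refine ⟨hh_nonneg, hh_sgn, fun r m hm => ?_⟩
  rcases lt_or_gt_of_ne hm with h | h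
  · have h1 : (1 : ℝ) ≤ -(m : ℝ) := by
      have : (1 : ℤ) ≤ -m := by omega
      exact_mod_cast this
    have h2 := hh_int r (-(m : ℝ)) h1
    have h3 := hh_nonneg r (m : ℝ)
    linarith
  · have h1 : (1 : ℝ) ≤ (m : ℝ) := by
      have : (1 : ℤ) ≤ m := by omega
      exact_mod_cast this
    have h2 := hh_int r (m : ℝ) h1
    have h3 := hh_nonneg r (-(m : ℝ))
    linarith

end Pool.Agent.Lib.MP_ff3ed7_lc.Adv
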