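import Pool.Agent.Lib.MP_ff3ed7_lc.GenericAM

/-!
# AM is not in PP with advice, relative to generic oracles (note 3382)

THEOREM (Adv/Main). For `a n ≤ n ^ k + k` there is a robust Arthur-Merlin oracle verifier with `a n + 4 n + 14` coins
whose language, relative to comeager many oracles, is not in `MA` and not in `PP` with any advice function of at
most `a n` bits, even for verifiers with access to the multilinear extensions of the oracle.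

The proofs of the statements `S_...` are complete in the docstrings. Every module is independent: file
`Adv/<Name>.lean`, first line `import Pool.Agent.Lib.MP_ff3ed7_lc.Adv.Spec`, namespace
`Pool.Agent.Lib.MP_ff3ed7_lc.Adv`, `theorem t<Name> : S_X → .. → S_<Name>` (hypotheses in the order of the
docstring), all other declarations `private`.
-/

set_option autoImplicit false

open Finset

namespace Pool.Agent.Lib.MP_ff3ed7_lc.Adv

open PP (Jx)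

/-! ## Functions which multiply correlations with rectangles by at most `B` -/

/-- Multiplication by `g` (or by any pull-back of `g`) changes the largest correlation with rectangles (`Bd`, in
`Pattern.lean`) at most by the factor `B`. -/
def Mul {X Y : Type} (B : ℝ) (g : X → Y → ℝ) : Prop :=
  0 ≤ B ∧ ∀ (X' Y' : Type) [Fintype X'] [Fintype Y'] (u : X' → X) (v : Y' → Y)
    (w h : X' → Y' → ℝ) (T : ℝ), Bd w T h → Bd w (B * T) (fun x y => h x y * g (u x) (v y))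

/-- The polynomial `∏_{i ≤ r} (t + 2 ^ i) ^ 2`. -/
def hh (r : ℕ) (t : ℝ) : ℝ := ∏ i ∈ range (r + 1), (t + 2 ^ i) ^ 2

/-- The expectation of `g` if the block `x` is drawn from `w1` or `w0`, according to `θ x`. -/
def Ex {Blk X Y : Type} [Fintype Blk] [Fintype X] [Fintype Y] [DecidableEq Blk] (w1 w0 : X → Y → ℝ)
    (θ : Blk → Bool) (g : (Blk → X) → (Blk → Y) → ℝ) : ℝ :=
  ∑ a : Blk → X, ∑ b : Blk → Y, (∏ x, (if θ x = true then w1 else w0) (a x) (b x)) * g a b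

/-- (60 lines) **Sgn.**

Proof. (1) clear. (2) Choose `j < r` (or `j = r`) with `2 ^ j ≤ t ≤ 2 ^ (j + 1)`, `j ≤ r`. Each factor satisfies
`(- t + 2 ^ i) ^ 2 ≤ (t + 2 ^ i) ^ 2` and for `i = j`: `|t - 2 ^ j| ≤ (t + 2 ^ j) / 3` as `t ≤ 2 ^ (j + 1)`, so
`9 (- t + 2 ^ j) ^ 2 ≤ (t + 2 ^ j) ^ 2`. (3) `hh r m` and `hh r (- m)` are squares of integers, not both zero: if `m > 0`
then `hh r m > 0`, if `m < 0` then `hh r (- m) > 0`. -/
def S_Sgn : Prop :=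
  (∀ (r : ℕ) (t : ℝ), 0 ≤ hh r t) ∧
  (∀ (r : ℕ) (t : ℝ), 1 ≤ t → t ≤ 2 ^ r → 9 * hh r (-t) ≤ hh r t) ∧
  ∀ (r : ℕ) (m : ℤ), m ≠ 0 → 1 ≤ hh r (m : ℝ) + hh r (-(m : ℝ))

/-- (150 lines) **Mc.** The class `Mul` is closed under the operations.

Proof. Constants: `Bd w T h` implies `Bd w (|c| T) (c h)`. Sums: add the two inequalities (triangle inequality).
Products: apply the two properties after each other. Protocols: `Bd.prot` (`Pattern.lean`) for the pulled back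
protocol (replace the functions of the nodes `alice s`, `bob s` by their compositions with `u`, `v`; same cost, same
values). `mono`: `Bd.nonneg`. Pull-back: compose the maps. -/
def S_Mc : Prop :=
  (∀ (X Y : Type) (c : ℝ), Mul |c| (fun (_ : X) (_ : Y) => c)) ∧
  (∀ (X Y : Type) (B B' : ℝ) (g g' : X → Y → ℝ), Mul B g → Mul B' g' →
    Mul (B + B') (fun x y => g x y + g' x y)) ∧
  (∀ (X Y : Type) (B B' : ℝ) (g g' : X → Y → ℝ), Mul B g → Mul B' g' →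
    Mul (B * B') (fun x y => g x y * g' x y)) ∧
  (∀ (X Y : Type) (P : Prot X Y) (c : ℕ), P.CostLE c →
    Mul (2 ^ c) (fun x y => indb (P.eval x y))) ∧
  (∀ (X Y : Type) (B B' : ℝ) (g : X → Y → ℝ), Mul B g → B ≤ B' → Mul B' g) ∧
  (∀ (X Y X' Y' : Type) (B : ℝ) (g : X → Y → ℝ) (u : X' → X) (v : Y' → Y), Mul B g →
    Mul B (fun x y => g (u x) (v y)))

/-- (100 lines, uses `S_Mc`) **Md.** Finite sums, products, powers and `hh`.

Proof. Induction on the finite set (`Finset.induction_on`), the empty sum and product are constants. `hh`: each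
factor `t + 2 ^ i`, `i ≤ r`, has the bound `2 ^ b + 2 ^ i ≤ 2 ^ (b + r + 1)`. -/
def S_Md : Prop :=
  (∀ (X Y I : Type) [DecidableEq I] (s : Finset I) (B : I → ℝ) (g : I → X → Y → ℝ),
    (∀ i ∈ s, Mul (B i) (g i)) → Mul (∑ i ∈ s, B i) (fun x y => ∑ i ∈ s, g i x y)) ∧
  (∀ (X Y I : Type) [DecidableEq I] (s : Finset I) (B : I → ℝ) (g : I → X → Y → ℝ),
    (∀ i ∈ s, Mul (B i) (g i)) → Mul (∏ i ∈ s, B i) (fun x y => ∏ i ∈ s, g i x y)) ∧
  (∀ (X Y : Type) (B : ℝ) (g : X → Y → ℝ) (k : ℕ), Mul B g →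
    Mul (B ^ k) (fun x y => g x y ^ k)) ∧
  (∀ (X Y : Type) (b r : ℕ) (t : X → Y → ℝ), Mul (2 ^ b) t →
    Mul (2 ^ (2 * (r + 1) * (b + r + 1))) (fun x y => hh r (t x y)) ∧
    Mul (2 ^ (2 * (r + 1) * (b + r + 1))) (fun x y => hh r (-(t x y))))

/-- (120 lines) **Hyb.** Hybrids.

Proof. Change one block at a time: for a finite set `s` of blocks let `θ_s x = θ x` for `x ∈ s`, `false` otherwise; by
induction on `s` it is enough to bound the change of `Ex` when the value at one block `x0` changes from `false` to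
`true`. Write `a = update a' x0 a0`, `b = update b' x0 b0`: the difference is the sum over the values at the other
blocks of the (nonnegative) product of the other weights times
`∑_{a0, b0} (w1 a0 b0 - w0 a0 b0) g (update a' x0 a0) (update b' x0 b0)`, and this is at most `B ε` in absolute value
(`Mul` with `u = update a' x0`, `v = update b' x0`, `h = 1` and the rectangle `1`); the weights of the other blocks have
the total mass `1`. (It may be convenient to use the equivalence `(Blk → X) ≃ X × ({x // x ≠ x0} → X)`,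
`Equiv.funSplitAt`.) -/
def S_Hyb : Prop :=
  ∀ (Blk X Y : Type) [Fintype Blk] [DecidableEq Blk] [Fintype X] [Fintype Y]
    (w1 w0 : X → Y → ℝ) (ε B : ℝ) (g : (Blk → X) → (Blk → Y) → ℝ),
    (∀ a b, 0 ≤ w1 a b) → (∀ a b, 0 ≤ w0 a b) → ∑ a, ∑ b, w1 a b = 1 → ∑ a, ∑ b, w0 a b = 1 →
    Bd (fun a b => w1 a b - w0 a b) ε (fun _ _ => 1) → Mul B g → ∀ θ : Blk → Bool,
    |Ex w1 w0 θ g - Ex w1 w0 (fun _ => false) g| ≤ Fintype.card Blk * (B * ε)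

/-- (250 lines, uses `S_Sgn`, `S_Mc`, `S_Md`, `S_Hyb`) **Core.** The core inequality; see note 3382 (4).

Proof. `T = card Blk`, `K = T`, `U_{s,x} = hh r (t_{s,x}) ^ K`, `W_{s,x} = hh r (- t_{s,x}) ^ K`, `S^θ_{s,x} = U` if `θ x` and
`W` otherwise, `G_s = ∏_x (U + W)_{s,x} ≥ 1`, `Den = ∏_s G_s ≥ 1`, `N_θ = ∑_s (∏_x S^θ_{s,x}) ∏_{s' ≠ s} G_{s'}`.
(i) `∑_θ N_θ = card Ad * Den` (`Finset.prod_add` or `Finset.prod_univ_sum`). (ii) If `F (a x) (b x) = θ x` for all `x`, then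
for the `s` of `hcor`: `1 ≤ t` and `U ≥ 9 ^ K W` if `θ x`, `t ≤ -1` and `W ≥ 9 ^ K U` otherwise, so `S ≥ (1 - 9⁻ᴷ) (U + W)`,
`∏_x S ≥ (1 - T 9⁻ᵀ) G_s ≥ G_s / 2` (Bernoulli, `2 T ≤ 9 ^ T`), and `N_θ ≥ Den / 2`. (iii) The weight of `(a, b)` in
`Ex w1 w0 θ` is zero unless `F (a x) (b x) = θ x` for all `x`. So
`(1/2) ∑_θ Ex θ Den ≤ ∑_θ Ex θ N_θ`. With `e0 = Ex (false) `, `e0 Den ≥ 1`, `err = T 2 ^ m ε` and `S_Hyb`:
`2 ^ T / 2 (e0 Den - err) ≤ card Ad * e0 Den + 2 ^ T err`; `card Ad ≤ 2 ^ T / 4` gives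
`2 ^ T / 4 ≤ (2 ^ T / 4) e0 Den ≤ (3/2) 2 ^ T err`. The bounds: `Mul (2 ^ E) U` with `E = 2 (r + 1) (b + r + 1) T`,
`Mul (2 ^ (E + 1)) (U + W)`, `Mul (2 ^ ((E + 1) T card Ad)) Den`, `N_θ`: `card Ad` times this (each product of `S` has a
smaller bound than the corresponding product of `U + W`), and `card Ad ≤ 2 ^ T`. -/
def S_Core : Prop :=
  ∀ (Blk X Y Ad : Type) [Fintype Blk] [DecidableEq Blk] [Fintype X] [Fintype Y] [Fintype Ad]
    [DecidableEq Ad] (w1 w0 : X → Y → ℝ) (ε : ℝ) (F : X → Y → Bool)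
    (t : Ad → Blk → (Blk → X) → (Blk → Y) → ℝ) (r b : ℕ),
    (∀ a b, 0 ≤ w1 a b) → (∀ a b, 0 ≤ w0 a b) → ∑ a, ∑ b, w1 a b = 1 → ∑ a, ∑ b, w0 a b = 1 →
    (∀ a b, w1 a b ≠ 0 → F a b = true) → (∀ a b, w0 a b ≠ 0 → F a b = false) →
    Bd (fun a b => w1 a b - w0 a b) ε (fun _ _ => 1) →
    (∀ s x a b, ∃ m : ℤ, m ≠ 0 ∧ |(m : ℝ)| ≤ 2 ^ r ∧ t s x a b = m) →
    (∀ s x, Mul (2 ^ b) (t s x)) →
    (∀ a b, ∃ s, ∀ x, (F (a x) (b x) = true → 0 < t s x a b) ∧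
      (F (a x) (b x) = false → t s x a b < 0)) →
    4 * Fintype.card Ad ≤ 2 ^ Fintype.card Blk →
    1 ≤ 6 * (Fintype.card Blk * (2 ^ ((2 * (r + 1) * (b + r + 1) * Fintype.card Blk + 1) *
      Fintype.card Blk * Fintype.card Ad + Fintype.card Blk) * ε))

/-! ## The integer valued functions of the verifiers -/

/-- (100 lines, uses `S_Mc`, `S_Md`) **Tp.** `PP`.

Proof. `t = 2 (2 #acc - 2 ^ R) - 1`, `#acc = ∑_ρ indb ((P ρ).eval x y)` (an integer), `prob = #acc / 2 ^ R` (`prob_eq`);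
`|t| ≤ 2 ^ (R + 2)`, bound `4 * 2 ^ R * 2 ^ (2 N ^ 2) + 2 * 2 ^ R + 1 ≤ 2 ^ (R + 2 N ^ 2 + 3)`, `R ≤ 2 N`. -/
def S_Tp : Prop :=
  ∀ (X Y : Type) (R N : ℕ) (P : (Fin R → Bool) → Prot X Y), (∀ ρ, (P ρ).CostLE (N * (2 * N))) →
    R ≤ 2 * N → ∃ t : X → Y → ℝ, Mul (2 ^ (4 * (N + 1) ^ 3)) t ∧
    (∀ x y, ∃ m : ℤ, m ≠ 0 ∧ |(m : ℝ)| ≤ 2 ^ (4 * (N + 1) ^ 3) ∧ t x y = m) ∧
    ∀ x y, (1 / 2 < prob R (fun ρ => (P ρ).eval x y = true) → 0 < t x y) ∧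
      (prob R (fun ρ => (P ρ).eval x y = true) ≤ 1 / 2 → t x y < 0)

/-- (150 lines, uses `S_Mc`, `S_Md`) **Tm.** `MA`.

Proof. `K = s + 1`, `#acc_m = ∑_ρ indb ((P m ρ).eval x y) = 2 ^ c * prob`, `Z = 2 ^ s * 2 ^ (c K)`,
`t = 2 (3 ^ K ∑_m #acc_m ^ K - Z) - 1`. If some `prob ≥ 2 / 3` then `3 ^ K #acc_m ^ K ≥ 2 ^ K 2 ^ (c K) = 2 Z`, `t ≥ 2 Z - 1 ≥ 1`; if
all `prob ≤ 1 / 3` then `3 ^ K ∑ #acc_m ^ K ≤ 2 ^ s 2 ^ (c K) = Z`, `t ≤ -1`. `|t| ≤ 2 * 3 ^ K * 2 ^ s * 2 ^ (c K) + 2 Z + 1` and the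
bound is `2 * 3 ^ K * 2 ^ s * (2 ^ c * 2 ^ (2 N ^ 2)) ^ K + 2 Z + 1 ≤ 2 ^ (2 + 2 K + s + (c + 2 N ^ 2) K)`, and
`2 + 2 (N + 1) + N + (N + 2 N ^ 2) (N + 1) ≤ 4 (N + 1) ^ 3`. -/
def S_Tm : Prop :=
  ∀ (X Y : Type) (s c N : ℕ) (P : (Fin s → Bool) → (Fin c → Bool) → Prot X Y),
    (∀ m ρ, (P m ρ).CostLE (N * (2 * N))) → s ≤ N → c ≤ N →
    ∃ t : X → Y → ℝ, Mul (2 ^ (4 * (N + 1) ^ 3)) t ∧
    (∀ x y, ∃ m : ℤ, m ≠ 0 ∧ |(m : ℝ)| ≤ 2 ^ (4 * (N + 1) ^ 3) ∧ t x y = m) ∧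
    ∀ x y, ((∃ m, 2 / 3 ≤ prob c (fun ρ => (P m ρ).eval x y = true)) → 0 < t x y) ∧
      ((∀ m, prob c (fun ρ => (P m ρ).eval x y = true) ≤ 1 / 3) → t x y < 0)

/-- (80 lines) **Grow.** Growth.

Proof. `a n + 3 ≤ n ^ k + k + 3`, everything is bounded by `C n ^ d` for some `C`, `d`, and `C n ^ d ≤ 2 ^ n` for large `n`
(`tendsto_pow_const_div_const_pow_of_one_lt`, compare `eventually_large` in `GenericAM.lean`). -/
def S_Grow : Prop :=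
  ∀ (k c M : ℕ) (a : ℕ → ℕ), (∀ n, a n ≤ n ^ k + k) → ∃ n0 : ℕ, ∀ n ≥ n0, M < n ∧
    a n + 3 ≤ 2 ^ n ∧
    9 * (9 + 4 * (a n + 3) + 16 * ((2 * (4 * (n ^ c + c + 1) ^ 3 + 1) *
      (2 * (4 * (n ^ c + c + 1) ^ 3) + 1) * (a n + 3) + 1) * (a n + 3))) ≤ 2 ^ n

/-- (60 lines) **Wt.** The weights of the function `fb ℓ`.

Proof. `α`, `β` from `exactDual_fb`; `w1 a b = α (sel a b) / 8 ^ card`, `w0 a b = β (sel a b) / 8 ^ card`; the sums are
`sum_sel`, the correlation with rectangles is `rect_bound` for `α - β` with `M = 2 / 2 ^ D`, as in the proof of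
`HasExactDual.weights` (`Pattern.lean`), divided by `8 ^ card`. -/
def S_Wt : Prop :=
  ∀ (ℓ D : ℕ), 9 * D ≤ 2 ^ ℓ → ∃ w1 w0 : (Jx ℓ → Bool × Bool) → (Jx ℓ → Bool × Bool) → ℝ,
    (∀ a b, 0 ≤ w1 a b) ∧ (∀ a b, 0 ≤ w0 a b) ∧ ∑ a, ∑ b, w1 a b = 1 ∧ ∑ a, ∑ b, w0 a b = 1 ∧
    (∀ a b, w1 a b ≠ 0 → lift (fb ℓ) a b = true) ∧
    (∀ a b, w0 a b ≠ 0 → lift (fb ℓ) a b = false) ∧
    Bd (fun a b => w1 a b - w0 a b) (√(2 / 2 ^ D)) (fun _ _ => 1)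

end Pool.Agent.Lib.MP_ff3ed7_lc.Adv
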