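import Pool.Agent.Lib.MP_ff3ed7_lc.Adv.Spec

set_option autoImplicit false

open Finset

namespace Pool.Agent.Lib.MP_ff3ed7_lc.Adv

private theorem acc_nat {R : ℕ} (s : (Fin R → Bool) → Bool) :
    ∑ ρ, indb (s ρ) = (((univ.filter (fun ρ => s ρ = true)).card : ℕ) : ℝ) := by
  unfold indb
  rw [Finset.sum_boole]

private theorem card_le {R : ℕ} (s : (Fin R → Bool) → Bool) :
    (univ.filter (fun ρ => s ρ = true)).card ≤ 2 ^ R := by
  refine (Finset.card_le_univ _).trans ?_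
  simp

theorem tTm : S_Mc → S_Md → S_Tm := by
  rintro ⟨hconst, hadd, hmul, hprot, hmono, -⟩ ⟨hsum, -, hpw, -⟩ X Y s c N P hP hs hc
  obtain ⟨K, hK⟩ : ∃ K, K = s + 1 := ⟨_, rfl⟩
  obtain ⟨E, hE⟩ : ∃ E, E = s + (c + N * (2 * N)) * K := ⟨_, rfl⟩
  have hacc : ∀ m, Mul ((2 : ℝ) ^ c * 2 ^ (N * (2 * N)))
      (fun x y => ∑ ρ, indb ((P m ρ).eval x y)) := by
    intro m
    have h1 := hsum X Y (Fin c → Bool) univ (fun _ => (2 : ℝ) ^ (N * (2 * N)))
      (fun ρ x y => indb ((P m ρ).eval x y)) (fun ρ _ => hprot X Y (P m ρ) _ (hP m ρ))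
    have h2 : ∑ _ρ : Fin c → Bool, (2 : ℝ) ^ (N * (2 * N)) = (2 : ℝ) ^ c * 2 ^ (N * (2 * N)) := by
      rw [Finset.sum_const, nsmul_eq_mul]
      congr 1
      simp
    rw [h2] at h1
    exact h1
  have hS : Mul ((2 : ℝ) ^ E) (fun x y => ∑ m, (∑ ρ, indb ((P m ρ).eval x y)) ^ K) := by
    have h1 := hsum X Y (Fin s → Bool) univ (fun _ => ((2 : ℝ) ^ c * 2 ^ (N * (2 * N))) ^ K)
      (fun m x y => (∑ ρ, indb ((P m ρ).eval x y)) ^ K) (fun m _ => hpw X Y _ _ K (hacc m))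
    have h2 : ∑ _m : Fin s → Bool, ((2 : ℝ) ^ c * 2 ^ (N * (2 * N))) ^ K = (2 : ℝ) ^ E := by
      rw [Finset.sum_const, nsmul_eq_mul, ← pow_add, ← pow_mul, hE, pow_add]
      congr 1
      simp
    rw [h2] at h1
    exact h1
  have hexp : 2 + 2 * K + E ≤ 4 * (N + 1) ^ 3 := by
    have h1 : (c + N * (2 * N)) * K ≤ (N + N * (2 * N)) * (N + 1) :=
      Nat.mul_le_mul (by omega) (by omega)
    have h2 : 4 * (N + 1) ^ 3 = 2 + 2 * (N + 1) + N + (N + N * (2 * N)) * (N + 1) +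
        (2 * N ^ 3 + 9 * N ^ 2 + 8 * N) := by
      ring
    omega
  have hpow : (2 : ℝ) ^ (2 + 2 * K + E) ≤ 2 ^ (4 * (N + 1) ^ 3) :=
    pow_le_pow_right₀ (by norm_num) hexp
  have hE1 : (1 : ℝ) ≤ 2 ^ E := one_le_pow₀ (by norm_num)
  have hZE : (2 : ℝ) ^ s * 2 ^ (c * K) ≤ 2 ^ E := by
    rw [← pow_add, hE]
    refine pow_le_pow_right₀ (by norm_num) ?_
    have : c * K ≤ (c + N * (2 * N)) * K := Nat.mul_le_mul_right _ (by omega)
    omega
  have hZ1 : (1 : ℝ) ≤ 2 ^ s * 2 ^ (c * K) := by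
    rw [← pow_add]
    exact one_le_pow₀ (by norm_num)
  have h34 : (3 : ℝ) ^ K ≤ 4 ^ K := pow_le_pow_left₀ (by norm_num) (by norm_num) K
  have h4K : (4 : ℝ) ≤ 4 ^ K := by
    have : (4 : ℝ) ^ 1 ≤ 4 ^ K := pow_le_pow_right₀ (by norm_num) (by omega)
    simpa using this
  have hbig : 2 * (3 : ℝ) ^ K * 2 ^ E + (2 * (2 ^ s * 2 ^ (c * K)) + 1) ≤
      2 ^ (4 * (N + 1) ^ 3) := by
    refine le_trans ?_ hpow
    have e : (2 : ℝ) ^ (2 + 2 * K + E) = 4 * 4 ^ K * 2 ^ E := by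
      rw [pow_add, pow_add, pow_mul]
      norm_num
    rw [e]
    have h1 : 2 * (3 : ℝ) ^ K * 2 ^ E ≤ 2 * 4 ^ K * 2 ^ E := by
      have := mul_le_mul_of_nonneg_right h34 (by positivity : (0 : ℝ) ≤ 2 ^ E)
      linarith
    have h2 : (4 : ℝ) * 2 ^ E ≤ 4 ^ K * 2 ^ E :=
      mul_le_mul_of_nonneg_right h4K (by positivity)
    linarith
  refine ⟨fun x y => 2 * 3 ^ K * (∑ m, (∑ ρ, indb ((P m ρ).eval x y)) ^ K) +
    (-(2 * (2 ^ s * 2 ^ (c * K)) + 1)), ?_, ?_, ?_⟩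
  · have h1 := hadd X Y _ _ _ _ (hmul X Y _ _ _ _ (hconst X Y (2 * 3 ^ K)) hS)
      (hconst X Y (-(2 * (2 ^ s * 2 ^ (c * K)) + 1)))
    refine hmono X Y _ _ _ h1 ?_
    rw [abs_of_nonneg (by positivity), abs_neg, abs_of_nonneg (by positivity)]
    exact hbig
  · intro x y
    simp only [acc_nat]
    have hk := fun m => card_le (fun ρ => (P m ρ).eval x y)
    obtain ⟨k, hkd⟩ : ∃ k : (Fin s → Bool) → ℕ, ∀ m,
      (univ.filter (fun ρ => (P m ρ).eval x y = true)).card = k m := ⟨_, fun _ => rfl⟩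
    simp only [hkd] at hk ⊢
    have hk' : ∀ m, k m ≤ 2 ^ c := hk
    clear hS hacc hpw hsum hconst hadd hmul hprot hmono hP
    refine ⟨2 * (3 ^ K * ∑ m, (k m : ℤ) ^ K) + (-(2 * (2 ^ s * 2 ^ (c * K)) + 1)), ?_, ?_, ?_⟩
    · intro h
      have h2 : 2 * ((3 ^ K * ∑ m, (k m : ℤ) ^ K) - (2 ^ s * 2 ^ (c * K))) = 1 := by linarith
      omega
    · have hSle : ∑ m, (k m : ℝ) ^ K ≤ 2 ^ E := by
        calc ∑ m, (k m : ℝ) ^ K ≤ ∑ _m : Fin s → Bool, ((2 : ℝ) ^ c) ^ K := by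
              refine Finset.sum_le_sum fun m _ => ?_
              refine pow_le_pow_left₀ (Nat.cast_nonneg _) ?_ K
              exact_mod_cast hk' m
          _ = 2 ^ s * 2 ^ (c * K) := by
              rw [Finset.sum_const, nsmul_eq_mul, ← pow_mul]
              congr 1
              simp
          _ ≤ 2 ^ E := hZE
      have hS0 : (0 : ℝ) ≤ ∑ m, (k m : ℝ) ^ K := Finset.sum_nonneg fun m _ => by positivity
      have h3 : (3 : ℝ) ^ K * ∑ m, (k m : ℝ) ^ K ≤ 3 ^ K * 2 ^ E :=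
        mul_le_mul_of_nonneg_left hSle (by positivity)
      have h3' : (0 : ℝ) ≤ (3 : ℝ) ^ K * ∑ m, (k m : ℝ) ^ K := by positivity
      have h3'' : (0 : ℝ) ≤ (3 : ℝ) ^ K * 2 ^ E := by positivity
      push_cast
      rw [abs_le]
      constructor
      · linarith
      · linarith
    · push_cast
      ring
  · intro x y
    simp only [prob_eq, acc_nat]
    obtain ⟨k, hkd⟩ : ∃ k : (Fin s → Bool) → ℕ, ∀ m,
      (univ.filter (fun ρ => (P m ρ).eval x y = true)).card = k m := ⟨_, fun _ => rfl⟩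
    simp only [hkd]
    clear hkd hS hacc hpw hsum hconst hadd hmul hprot hmono hP
    constructor
    · rintro ⟨m, hm⟩
      rw [le_div_iff₀ (by positivity)] at hm
      have h1 : (2 * (2 : ℝ) ^ c) ^ K ≤ (3 * (k m : ℝ)) ^ K :=
        pow_le_pow_left₀ (by positivity) (by linarith) K
      have h2 : (k m : ℝ) ^ K ≤ ∑ m, (k m : ℝ) ^ K :=
        Finset.single_le_sum (f := fun m => (k m : ℝ) ^ K)
          (fun m _ => pow_nonneg (Nat.cast_nonneg _) _)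
          (Finset.mem_univ m)
      have h3 : (2 * (2 : ℝ) ^ c) ^ K = 2 * (2 ^ s * 2 ^ (c * K)) := by
        rw [mul_pow, ← pow_mul, hK, pow_succ]
        ring
      rw [h3, mul_pow] at h1
      have h4 : (3 : ℝ) ^ K * (k m : ℝ) ^ K ≤ 3 ^ K * ∑ m, (k m : ℝ) ^ K :=
        mul_le_mul_of_nonneg_left h2 (by positivity)
      linarith
    · intro h
      have h1 : ∀ m, (3 : ℝ) ^ K * (k m : ℝ) ^ K ≤ 2 ^ (c * K) := by
        intro m
        have hm := h m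
        rw [div_le_iff₀ (by positivity)] at hm
        rw [← mul_pow, pow_mul]
        exact pow_le_pow_left₀ (mul_nonneg (by norm_num) (Nat.cast_nonneg _)) (by linarith) K
      have h2 : (3 : ℝ) ^ K * ∑ m, (k m : ℝ) ^ K ≤ 2 ^ s * 2 ^ (c * K) := by
        rw [Finset.mul_sum]
        refine (Finset.sum_le_sum fun m _ => h1 m).trans (le_of_eq ?_)
        rw [Finset.sum_const, nsmul_eq_mul]
        congr 1
        simp
      linarith

end Pool.Agent.Lib.MP_ff3ed7_lc.Adv
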