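import Pool.Agent.Lib.MP_ff3ed7_lc.Adv.Spec

set_option autoImplicit false

open Finset

namespace Pool.Agent.Lib.MP_ff3ed7_lc.Adv

private theorem acc_nat {R : ℕ} (s : (Fin R → Bool) → Bool) :
    ∑ ρ, indb (s ρ) = (((univ.filter (fun ρ => s ρ = true)).card : ℕ) : ℝ) := by
  unfold indb
  rw [Finset.sum_boole]

private theorem card_le {R : ℕ} (s : (Fin R → Bool) → Bool) :
    (univ.filter (fun ρ => s ρ = true)).card ≤ 2 ^ R := by
  refine (Finset.card_le_univ _).trans ?_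
  simp

theorem tTp : S_Mc → S_Md → S_Tp := by
  rintro ⟨hconst, hadd, hmul, hprot, hmono, -⟩ ⟨hsum, -, -, -⟩ X Y R N P hP hR
  have hacc : Mul ((2 : ℝ) ^ R * 2 ^ (N * (2 * N)))
      (fun x y => ∑ ρ, indb ((P ρ).eval x y)) := by
    have h1 := hsum X Y (Fin R → Bool) univ (fun _ => (2 : ℝ) ^ (N * (2 * N)))
      (fun ρ x y => indb ((P ρ).eval x y)) (fun ρ _ => hprot X Y (P ρ) _ (hP ρ))
    have h2 : ∑ _ρ : Fin R → Bool, (2 : ℝ) ^ (N * (2 * N)) = (2 : ℝ) ^ R * 2 ^ (N * (2 * N)) := by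
      rw [Finset.sum_const, nsmul_eq_mul]
      congr 1
      simp
    rw [h2] at h1
    exact h1
  have hexp : R + N * (2 * N) + 3 ≤ 4 * (N + 1) ^ 3 := by
    have : 4 * (N + 1) ^ 3 = 2 * N + N * (2 * N) + 3 + (4 * N ^ 3 + 10 * N ^ 2 + 10 * N + 1) := by
      ring
    omega
  have hpow : (2 : ℝ) ^ (R + N * (2 * N) + 3) ≤ 2 ^ (4 * (N + 1) ^ 3) :=
    pow_le_pow_right₀ (by norm_num) hexp
  have hRpos : (1 : ℝ) ≤ 2 ^ R := one_le_pow₀ (by norm_num)
  have hNpos : (1 : ℝ) ≤ 2 ^ (N * (2 * N)) := one_le_pow₀ (by norm_num)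
  have hbig : 4 * ((2 : ℝ) ^ R * 2 ^ (N * (2 * N))) + (2 * 2 ^ R + 1) ≤ 2 ^ (4 * (N + 1) ^ 3) := by
    refine le_trans ?_ hpow
    have e : (2 : ℝ) ^ (R + N * (2 * N) + 3) = 8 * (2 ^ R * 2 ^ (N * (2 * N))) := by
      rw [pow_add, pow_add]; ring
    rw [e]
    have h3 : (2 : ℝ) ^ R ≤ 2 ^ R * 2 ^ (N * (2 * N)) := le_mul_of_one_le_right (by positivity) hNpos
    linarith
  refine ⟨fun x y => 4 * (∑ ρ, indb ((P ρ).eval x y)) + (-(2 * 2 ^ R + 1)), ?_, ?_, ?_⟩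
  · have h1 := hadd X Y _ _ _ _ (hmul X Y _ _ _ _ (hconst X Y 4) hacc)
      (hconst X Y (-(2 * 2 ^ R + 1)))
    refine hmono X Y _ _ _ h1 ?_
    rw [abs_of_nonneg (by norm_num : (0 : ℝ) ≤ 4), abs_neg, abs_of_nonneg (by positivity)]
    exact hbig
  · intro x y
    simp only [acc_nat]
    have hk := card_le (fun ρ => (P ρ).eval x y)
    set k := (univ.filter (fun ρ => (P ρ).eval x y = true)).card with hkd
    refine ⟨4 * (k : ℤ) + (-(2 * 2 ^ R + 1)), ?_, ?_, ?_⟩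
    · intro h
      have h2 : 2 * (2 * (k : ℤ) - 2 ^ R) = 1 := by linarith
      omega
    · have hkr : (k : ℝ) ≤ 2 ^ R := by exact_mod_cast hk
      have hk0 : (0 : ℝ) ≤ k := Nat.cast_nonneg _
      push_cast
      have h3 : (2 : ℝ) ^ R ≤ 2 ^ R * 2 ^ (N * (2 * N)) :=
        le_mul_of_one_le_right (by positivity) hNpos
      rw [abs_le]
      constructor
      · linarith
      · linarith
    · push_cast
      ring
  · intro x y
    simp only [prob_eq, acc_nat]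
    set k := (univ.filter (fun ρ => (P ρ).eval x y = true)).card with hkd
    constructor
    · intro h
      rw [lt_div_iff₀ (by positivity)] at h
      have h2 : ((2 ^ R : ℕ) : ℝ) < ((2 * k : ℕ) : ℝ) := by
        push_cast
        linarith
      have h3 : 2 ^ R < 2 * k := by exact_mod_cast h2
      have h4 : ((2 ^ R + 1 : ℕ) : ℝ) ≤ ((2 * k : ℕ) : ℝ) := by exact_mod_cast h3
      push_cast at h4
      linarith
    · intro h
      rw [div_le_iff₀ (by positivity)] at h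
      linarith

end Pool.Agent.Lib.MP_ff3ed7_lc.Adv
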