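import Pool.Agent.Lib.MP_ff3ed7_lc.Adv.Spec

set_option autoImplicit false

open Finset

namespace Pool.Agent.Lib.MP_ff3ed7_lc.Adv

open PP (Jx)

private lemma wt_aux {ι : Type} [Fintype ι] [DecidableEq ι] {f : (ι → Bool) → Bool} {D : ℕ}
    (h : HasExactDual f D) :
    ∃ w1 w0 : (ι → Bool × Bool) → (ι → Bool × Bool) → ℝ,
    (∀ a b, 0 ≤ w1 a b) ∧ (∀ a b, 0 ≤ w0 a b) ∧ ∑ a, ∑ b, w1 a b = 1 ∧ ∑ a, ∑ b, w0 a b = 1 ∧
    (∀ a b, w1 a b ≠ 0 → lift f a b = true) ∧
    (∀ a b, w0 a b ≠ 0 → lift f a b = false) ∧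
    Bd (fun a b => w1 a b - w0 a b) (√(2 / 2 ^ D)) (fun _ _ => 1) := by
  obtain ⟨α, β, hα, hβ, hα1, hβ1, hαf, hβf, hD⟩ := h
  have h8 : (0 : ℝ) < 8 ^ Fintype.card ι := by positivity
  have hsum : ∀ φ : (ι → Bool) → ℝ, ∑ z, φ z = 1 →
      ∑ a : ι → Bool × Bool, ∑ b : ι → Bool × Bool, φ (sel a b) / 8 ^ Fintype.card ι = 1 := by
    intro φ hφ
    simp_rw [← Finset.sum_div]
    rw [sum_sel, hφ, mul_one, div_self h8.ne']
  refine ⟨fun a b => α (sel a b) / 8 ^ Fintype.card ι, fun a b => β (sel a b) / 8 ^ Fintype.card ι,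
    fun a b => div_nonneg (hα _) h8.le, fun a b => div_nonneg (hβ _) h8.le, hsum α hα1,
    hsum β hβ1, ?_, ?_, ?_⟩
  · intro a b hab
    refine hαf _ fun h0 => hab ?_
    show α (sel a b) / _ = 0
    rw [h0, zero_div]
  · intro a b hab
    refine hβf _ fun h0 => hab ?_
    show β (sel a b) / _ = 0
    rw [h0, zero_div]
  · intro a b ha hb
    refine Real.abs_le_sqrt ?_
    have hr := rect_bound (fun z => α z - β z) (2 / 2 ^ D) ?_ a b ha hb
    · have h1 : ∑ x : ι → Bool × Bool, ∑ y : ι → Bool × Bool,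
          (α (sel x y) / 8 ^ Fintype.card ι - β (sel x y) / 8 ^ Fintype.card ι) * 1 * a x * b y =
          (∑ x : ι → Bool × Bool, ∑ y : ι → Bool × Bool,
            (α (sel x y) - β (sel x y)) * a x * b y) / 8 ^ Fintype.card ι := by
        simp_rw [Finset.sum_div]
        refine sum_congr rfl fun x _ => sum_congr rfl fun y _ => ?_
        ring
      show (∑ x : ι → Bool × Bool, ∑ y : ι → Bool × Bool,
          (α (sel x y) / 8 ^ Fintype.card ι - β (sel x y) / 8 ^ Fintype.card ι) * 1 * a x *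
            b y) ^ 2 ≤ _
      rw [h1, div_pow, div_le_iff₀ (by positivity)]
      have h64 : ((8 : ℝ) ^ Fintype.card ι) ^ 2 = 64 ^ Fintype.card ι := by
        rw [← pow_mul, mul_comm, pow_mul]
        norm_num
      rw [h64, mul_comm]
      exact hr
    · intro S
      rcases Nat.lt_or_ge D S.card with hS | hS
      · have h2 : (∑ z, (α z - β z) * ∏ i ∈ S, (if z i then (-1 : ℝ) else 1)) ^ 2 ≤ 4 := by
          have h3 : |∑ z, (α z - β z) * ∏ i ∈ S, (if z i then (-1 : ℝ) else 1)| ≤ 2 := by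
            calc |∑ z, (α z - β z) * ∏ i ∈ S, (if z i then (-1 : ℝ) else 1)|
                ≤ ∑ z, |(α z - β z) * ∏ i ∈ S, (if z i then (-1 : ℝ) else 1)| :=
                  Finset.abs_sum_le_sum_abs _ _
              _ ≤ ∑ z, (α z + β z) := by
                  refine Finset.sum_le_sum fun z _ => ?_
                  have h4 : |∏ i ∈ S, (if z i then (-1 : ℝ) else 1)| = 1 := by
                    rw [Finset.abs_prod]
                    exact Finset.prod_eq_one fun i _ => chi_abs (z i)
                  rw [abs_mul, h4, mul_one]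
                  rw [abs_le]
                  constructor <;> linarith [hα z, hβ z]
              _ = 2 := by
                  rw [Finset.sum_add_distrib, hα1, hβ1]
                  norm_num
          rw [← sq_abs]
          nlinarith [abs_nonneg (∑ z, (α z - β z) * ∏ i ∈ S, (if z i then (-1 : ℝ) else 1))]
        refine h2.trans ?_
        have h5 : (2 : ℝ) ^ (D + 1) ≤ 2 ^ S.card := pow_le_pow_right₀ (by norm_num) hS
        have h6 : (0 : ℝ) < 2 ^ D := by positivity
        rw [div_mul_eq_mul_div, le_div_iff₀ h6]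
        rw [pow_succ] at h5
        linarith
      · have h7 : ∑ z, (α z - β z) * ∏ i ∈ S, (if z i then (-1 : ℝ) else 1) = 0 := by
          have := hD S hS (fun z => ∏ i ∈ S, (if z i then (-1 : ℝ) else 1)) (by
            intro x y hxy
            exact Finset.prod_congr rfl fun i hi => by rw [hxy i hi])
          simp_rw [sub_mul]
          rw [Finset.sum_sub_distrib, this, sub_self]
        rw [h7, zero_pow two_ne_zero]
        positivity

theorem tWt : S_Wt := by
  intro ℓ D h
  exact wt_aux (exactDual_fb h)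

end Pool.Agent.Lib.MP_ff3ed7_lc.Adv
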